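import Mathlib

set_option autoImplicit false

namespace Pool.Agent.MooreExp

open PowerSeries

/-- Distinct orders argument: elements `β i` linearly independent over `k`, coefficients `α i` in a
space all of whose nonzero elements have order `< q`, `q` a power of the characteristic; then
`∑ α i * (β i) ^ q = 0` forces all `α i = 0`. -/
lemma ps_indep {k : Type*} [Field k] (p μ : ℕ) [Fact p.Prime] [CharP k p]
    (A : Submodule k k⟦X⟧) (hA : ∀ a ∈ A, a ≠ 0 → a.order < ((p ^ μ : ℕ) : ℕ∞))
    {ι : Type*} [DecidableEq ι] :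
    ∀ (n : ℕ) (s : Finset ι) (α β : ι → k⟦X⟧), s.card = n →
      (∀ i ∈ s, α i ∈ A) →
      (∀ c : ι → k, (∑ i ∈ s, c i • β i = 0) → ∀ i ∈ s, c i = 0) →
      (∑ i ∈ s, α i * (β i) ^ (p ^ μ) = 0) → ∀ i ∈ s, α i = 0 := by
  have : CharP k⟦X⟧ p := by
    exact charP_of_injective_ringHom (f := (PowerSeries.C : k →+* k⟦X⟧)) PowerSeries.C_injective p
  have : ExpChar k⟦X⟧ p := ExpChar.prime Fact.out
  have : ExpChar k p := ExpChar.prime Fact.out
  intro n
  induction n with
  | zero =>
    intro s α β hs _ _ _ i hi
    rw [Finset.card_eq_zero] at hs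
    subst hs; simp at hi
  | succ n ih =>
    intro s α β hs hα hβ hsum
    have hne : s.Nonempty := by rw [← Finset.card_pos]; omega
    obtain ⟨i0, hi0, hmin⟩ := Finset.exists_min_image s (fun i => (β i).order) hne
    have hβ0 : β i0 ≠ 0 := by
      intro h
      have := hβ (fun i => if i = i0 then 1 else 0) (by
        simp [h]) i0 hi0
      simp at this
    set o := (β i0).order.toNat with ho
    have ho' : ((o : ℕ) : ℕ∞) = (β i0).order := by
      rw [ho]; exact (PowerSeries.coe_toNat_order hβ0)
    have hc0 : coeff o (β i0) ≠ 0 := by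
      have := PowerSeries.coeff_order hβ0
      simpa [ho] using this
    set lam : ι → k := fun i => coeff o (β i) / coeff o (β i0) with hlam
    set β' : ι → k⟦X⟧ := fun i => β i - lam i • β i0 with hβ'
    set s' := s.erase i0 with hs'
    set α0 : k⟦X⟧ := α i0 + ∑ i ∈ s', (lam i ^ (p ^ μ)) • α i with hα0
    have hα0A : α0 ∈ A := by
      apply A.add_mem (hα i0 hi0)
      apply A.sum_mem
      intro i hi
      exact A.smul_mem _ (hα i (Finset.mem_of_mem_erase hi))
    have hβ'ord : ∀ i ∈ s', ((o + 1 : ℕ) : ℕ∞) ≤ (β' i).order := by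
      intro i hi
      apply PowerSeries.le_order
      intro j hj
      have hj' : j < o + 1 := by exact_mod_cast hj
      rcases Nat.lt_succ_iff_lt_or_eq.1 hj' with h | h
      · have h1 : coeff j (β i0) = 0 := by
          apply PowerSeries.coeff_of_lt_order
          rw [← ho']; exact_mod_cast h
        have h2 : coeff j (β i) = 0 := by
          apply PowerSeries.coeff_of_lt_order
          refine lt_of_lt_of_le ?_ (hmin i (Finset.mem_of_mem_erase hi))
          rw [← ho']; exact_mod_cast h
        simp [hβ', h1, h2]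
      · subst h
        simp only [hβ', hlam, map_sub, PowerSeries.coeff_smul, smul_eq_mul]
        field_simp
        ring
    have hβeq : ∀ i, β i = β' i + lam i • β i0 := by
      intro i; simp [hβ']
    have hkey : α0 * (β i0) ^ (p ^ μ) + ∑ i ∈ s', α i * (β' i) ^ (p ^ μ) = 0 := by
      rw [← hsum, ← Finset.add_sum_erase s _ hi0, hα0, add_mul, add_assoc]
      congr 1
      rw [Finset.sum_mul, ← Finset.sum_add_distrib]
      apply Finset.sum_congr rfl
      intro i _
      conv_rhs => rw [hβeq i, add_pow_expChar_pow, _root_.smul_pow]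
      rw [mul_add, add_comm, smul_mul_assoc, mul_smul_comm]
    have hpos : 0 < p ^ μ := pow_pos (Fact.out (p := p.Prime)).pos _
    have hα00 : α0 = 0 := by
      by_contra hne0
      have h1 := hA α0 hα0A hne0
      have h2 : (α0 * (β i0) ^ (p ^ μ)).order < (((o + 1) * p ^ μ : ℕ) : ℕ∞) := by
        rw [PowerSeries.order_mul, PowerSeries.order_pow, ← ho']
        have h3 : α0.order = ((α0.order.toNat : ℕ) : ℕ∞) := (PowerSeries.coe_toNat_order hne0).symm
        rw [h3] at h1 ⊢
        have h4 : α0.order.toNat < p ^ μ := by exact_mod_cast h1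
        have h5 : α0.order.toNat + (p ^ μ) * o < (o + 1) * p ^ μ := by nlinarith
        rw [nsmul_eq_mul]
        exact_mod_cast h5
      have h6 : (((o + 1) * p ^ μ : ℕ) : ℕ∞) ≤ (∑ i ∈ s', α i * (β' i) ^ (p ^ μ)).order := by
        apply PowerSeries.le_order
        intro j hj
        rw [map_sum]
        apply Finset.sum_eq_zero
        intro i hi
        apply PowerSeries.coeff_of_lt_order
        refine lt_of_lt_of_le hj ?_
        rw [PowerSeries.order_mul, PowerSeries.order_pow]
        refine le_trans ?_ le_add_self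
        rw [nsmul_eq_mul, Nat.cast_mul, mul_comm]
        gcongr
        exact hβ'ord i hi
      have h7 : α0 * (β i0) ^ (p ^ μ) = - ∑ i ∈ s', α i * (β' i) ^ (p ^ μ) :=
        eq_neg_of_add_eq_zero_left hkey
      rw [h7, PowerSeries.order_neg] at h2
      exact absurd (lt_of_le_of_lt h6 h2) (lt_irrefl _)
    rw [hα00, zero_mul, zero_add] at hkey
    have hind : ∀ c : ι → k, (∑ i ∈ s', c i • β' i = 0) → ∀ i ∈ s', c i = 0 := by
      intro c hc i hi
      have h1 : ∑ i ∈ s, (if i = i0 then - ∑ j ∈ s', c j * lam j else c i) • β i = 0 := by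
        rw [← Finset.add_sum_erase s _ hi0, if_pos rfl, neg_smul, Finset.sum_smul, ← hc,
          neg_add_eq_sub, ← hs', ← Finset.sum_sub_distrib]
        apply Finset.sum_congr rfl
        intro j hj
        rw [if_neg (Finset.ne_of_mem_erase hj), hβ']
        simp only [smul_sub, smul_smul]
      have h2 := hβ _ h1 i (Finset.mem_of_mem_erase hi)
      rwa [if_neg (Finset.ne_of_mem_erase hi)] at h2
    have hfin := ih s' α β' (by rw [hs', Finset.card_erase_of_mem hi0]; omega)
      (fun i hi => hα i (Finset.mem_of_mem_erase hi)) hind hkey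
    intro i hi
    by_cases h : i = i0
    · subst h
      have h1 : ∑ i ∈ s', (lam i ^ (p ^ μ)) • α i = 0 := by
        apply Finset.sum_eq_zero
        intro j hj
        rw [hfin j hj, smul_zero]
      rw [hα0, h1, add_zero] at hα00
      exact hα00
    · exact hfin i (Finset.mem_erase.2 ⟨h, hi⟩)

end Pool.Agent.MooreExp
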