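import Mathlib

set_option autoImplicit false

open Polynomial

namespace Pool.Agent.MooreExp

/-- `Wt w N P`: every nonzero coefficient `c_b(X)` of `Y^b` in `P` satisfies `deg c_b + w b ≤ N`. -/
def Wt {R : Type*} [CommRing R] (w N : ℕ) (P : R[X][X]) : Prop :=
  ∀ b, P.coeff b ≠ 0 → (P.coeff b).natDegree + w * b ≤ N

variable {R : Type*} [CommRing R] {w N M : ℕ} {P Q : R[X][X]}

lemma Wt.zero : Wt w N (0 : R[X][X]) := by
  intro b hb; simp at hb

lemma Wt.mono (h : Wt w N P) (hNM : N ≤ M) : Wt w M P := fun b hb => (h b hb).trans hNM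

lemma Wt.add (hP : Wt w N P) (hQ : Wt w N Q) : Wt w N (P + Q) := by
  intro b hb
  rw [coeff_add] at hb ⊢
  by_cases h1 : P.coeff b = 0
  · rw [h1, zero_add] at hb ⊢; exact hQ b hb
  by_cases h2 : Q.coeff b = 0
  · rw [h2, add_zero] at hb ⊢; exact hP b hb
  have := natDegree_add_le (P.coeff b) (Q.coeff b)
  have h3 := hP b h1
  have h4 := hQ b h2
  have h5 : max (P.coeff b).natDegree (Q.coeff b).natDegree + w * b ≤ N := by
    rcases max_choice (P.coeff b).natDegree (Q.coeff b).natDegree with h | h <;> rw [h] <;> assumption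
  omega

lemma Wt.neg (hP : Wt w N P) : Wt w N (-P) := by
  intro b hb
  rw [coeff_neg] at hb ⊢
  rw [natDegree_neg]
  exact hP b (by simpa using hb)

lemma Wt.sub (hP : Wt w N P) (hQ : Wt w N Q) : Wt w N (P - Q) := by
  rw [sub_eq_add_neg]; exact hP.add hQ.neg

lemma Wt.sum {ι : Type*} (s : Finset ι) (f : ι → R[X][X]) (h : ∀ i ∈ s, Wt w N (f i)) :
    Wt w N (∑ i ∈ s, f i) := by
  classical
  induction s using Finset.induction_on with
  | empty => simpa using Wt.zero
  | insert a s ha ih =>
    rw [Finset.sum_insert ha]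
    exact (h a (Finset.mem_insert_self _ _)).add (ih fun i hi => h i (Finset.mem_insert_of_mem hi))

lemma Wt.monomial (b : ℕ) (c : R[X]) (h : c.natDegree + w * b ≤ N) :
    Wt w N (Polynomial.monomial b c) := by
  intro b' hb'
  rw [coeff_monomial] at hb' ⊢
  split_ifs at hb' ⊢ with h1
  · subst h1; exact h
  · exact absurd rfl hb'

lemma Wt.monomial_mul (b : ℕ) (c : R[X]) (h : c.natDegree + w * b ≤ M) (hP : Wt w N P) :
    Wt w (M + N) (Polynomial.monomial b c * P) := by
  intro d hd
  rcases Nat.lt_or_ge d b with h1 | h1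
  · exfalso; apply hd
    rw [← C_mul_X_pow_eq_monomial, mul_assoc, coeff_C_mul, coeff_X_pow_mul', if_neg (by omega), mul_zero]
  · obtain ⟨e, rfl⟩ := Nat.exists_eq_add_of_le h1
    have h2 : (Polynomial.monomial b c * P).coeff (b + e) = c * P.coeff e := by
      rw [← C_mul_X_pow_eq_monomial, mul_assoc, coeff_C_mul, coeff_X_pow_mul', if_pos (by omega)]
      congr 2; omega
    rw [h2] at hd ⊢
    have h3 : P.coeff e ≠ 0 := by
      rintro h; rw [h, mul_zero] at hd; exact hd rfl
    have h4 := hP e h3
    have h5 := natDegree_mul_le (p := c) (q := P.coeff e)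
    rw [mul_add]; omega

lemma Wt.mul (hP : Wt w N P) (hQ : Wt w M Q) : Wt w (N + M) (P * Q) := by
  rw [P.as_sum_support, Finset.sum_mul]
  apply Wt.sum
  intro b hb
  exact Wt.monomial_mul b _ (hP b (by simpa using hb)) hQ

lemma Wt.one : Wt w 0 (1 : R[X][X]) := by
  have := Wt.monomial (R := R) (w := w) (N := 0) 0 1 (by simp)
  simpa using this

lemma Wt.pow (hP : Wt w N P) (n : ℕ) : Wt w (n * N) (P ^ n) := by
  induction n with
  | zero => simpa using Wt.one
  | succ n ih => rw [pow_succ, Nat.succ_mul]; exact ih.mul hP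

lemma Wt.coeff_natDegree_lt (hP : Wt w N P) (b : ℕ) : (P.coeff b).natDegree < N + 1 := by
  by_cases h : P.coeff b = 0
  · rw [h]; simp
  · have := hP b h; omega

/-- division with remainder respects the weight -/
lemma Wt.exists_div [Nontrivial R] {G : R[X][X]} (hG : G.Monic) (hGw : Wt w (w * G.natDegree) G) :
    ∀ (n : ℕ) (P : R[X][X]) (N : ℕ), P.natDegree < n → Wt w N P →
      ∃ S T : R[X][X], P = G * S + T ∧ T.degree < G.degree ∧ Wt w N T := by
  intro n
  induction n with
  | zero => intro P N h; omega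
  | succ n ih =>
    intro P N hn hP
    by_cases hd : P.degree < G.degree
    · exact ⟨0, P, by simp, hd, hP⟩
    have hd' : G.natDegree ≤ P.natDegree := by
      rw [not_lt] at hd; exact natDegree_le_natDegree hd
    have hP0 : P ≠ 0 := by
      rintro rfl
      rw [degree_zero, not_lt, le_bot_iff, degree_eq_bot] at hd
      exact hG.ne_zero hd
    set m := P.natDegree - G.natDegree with hm
    set P' := P - G * Polynomial.monomial m P.leadingCoeff with hP'
    have hw : Wt w N P' := by
      apply hP.sub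
      have h1 : P.leadingCoeff.natDegree + w * P.natDegree ≤ N := hP _ (by simpa using hP0)
      have h2 := Wt.monomial_mul (w := w) (M := P.leadingCoeff.natDegree + w * m) m P.leadingCoeff
        le_rfl hGw
      rw [mul_comm]
      apply h2.mono
      have : w * m + w * G.natDegree = w * P.natDegree := by
        rw [← mul_add, hm, Nat.sub_add_cancel hd']
      omega
    have hlt : P'.degree < P.degree := by
      have h3 : (G * Polynomial.monomial m P.leadingCoeff).degree = P.degree := by
        rw [hG.degree_mul_comm, hG.degree_mul, degree_monomial _ (leadingCoeff_ne_zero.2 hP0),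
          degree_eq_natDegree hG.ne_zero, degree_eq_natDegree hP0]
        norm_cast; omega
      apply degree_sub_lt_left h3.symm hP0
      rw [mul_comm, leadingCoeff_mul_monic hG, leadingCoeff_monomial]
    by_cases hP'0 : P' = 0
    · refine ⟨Polynomial.monomial m P.leadingCoeff, 0, ?_, ?_, Wt.zero⟩
      · rw [add_zero]; exact sub_eq_zero.1 hP'0
      · rw [degree_zero, bot_lt_iff_ne_bot, Ne, degree_eq_bot]; exact hG.ne_zero
    obtain ⟨S, T, h1, h2, h3⟩ := ih P' N (by
      have := natDegree_lt_natDegree hP'0 hlt; omega) hw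
    refine ⟨S + Polynomial.monomial m P.leadingCoeff, T, ?_, h2, h3⟩
    calc P = P' + G * Polynomial.monomial m P.leadingCoeff := by rw [hP']; ring
      _ = _ := by rw [h1]; ring

lemma Wt.modByMonic [Nontrivial R] {G : R[X][X]} (hG : G.Monic) (hGw : Wt w (w * G.natDegree) G)
    (hP : Wt w N P) : Wt w N (P %ₘ G) := by
  obtain ⟨S, T, h1, h2, h3⟩ := Wt.exists_div hG hGw (P.natDegree + 1) P N (by omega) hP
  have h4 : P %ₘ G = T := (div_modByMonic_unique S T hG ⟨by rw [add_comm]; exact h1.symm, h2⟩).2
  rw [h4]; exact h3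

end Pool.Agent.MooreExp
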