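import Mathlib
import Pool.Agent.MooreExp.Weight
import Pool.Agent.MooreExp.PS

set_option autoImplicit false

open Polynomial

namespace Pool.Agent.MooreExp

lemma inj_of_root {R S : Type*} [CommRing R] [IsDomain R] [IsIntegrallyClosed R] [CommRing S]
    [IsDomain S] (f : R →+* S) (hf : Function.Injective f) (G : R[X]) (hG : G.Monic)
    (hirr : Irreducible G) (s : S) (hs : G.eval₂ f s = 0) (a : R[X]) (ha : a.eval₂ f s = 0)
    (hdeg : a.degree < G.degree) : a = 0 := by
  let _ := f.toAlgebra
  have : Module.IsTorsionFree R S := Module.isTorsionFree_iff_algebraMap_injective.2 hf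
  have hs' : aeval s G = 0 := hs
  have ha' : aeval s a = 0 := ha
  have hint : IsIntegral R s := ⟨G, hG, hs⟩
  obtain ⟨u, hu⟩ := minpoly.isIntegrallyClosed_dvd hint hs'
  by_contra hne
  have h1 := minpoly.IsIntegrallyClosed.degree_le_of_ne_zero hne ha'
  have h2 : IsUnit u := by
    rcases hirr.isUnit_or_isUnit hu with h | h
    · exfalso
      have := minpoly.not_isUnit R s
      exact this h
    · exact h
  have h3 : G.degree = (minpoly R s).degree := by
    rw [hu, degree_mul, degree_eq_zero_of_isUnit h2, add_zero]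
  rw [h3] at hdeg
  exact absurd h1 (not_le.2 hdeg)

variable {K : Type*} [Field K]

/-- the ring homomorphism `c(X) ↦ c(θ + s)` into power series in `s` -/
noncomputable def shiftPS (θ : K) : K[X] →+* PowerSeries K :=
  (coeToPowerSeries.ringHom).comp (compRingHom (X + C θ))

lemma shiftPS_apply (θ : K) (c : K[X]) : shiftPS θ c = ((c.comp (X + C θ) : K[X]) : PowerSeries K) :=
  rfl

lemma shiftPS_injective (θ : K) : Function.Injective (shiftPS θ) := by
  rw [injective_iff_map_eq_zero]
  intro c hc
  rw [shiftPS_apply, Polynomial.coe_eq_zero_iff] at hc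
  rw [comp_eq_zero_iff] at hc
  rcases hc with h | ⟨_, h⟩
  · exact h
  · exfalso
    have := congrArg natDegree h
    rw [natDegree_X_add_C, natDegree_C] at this
    omega

lemma constantCoeff_shiftPS (θ : K) (c : K[X]) :
    PowerSeries.constantCoeff (shiftPS θ c) = c.eval θ := by
  rw [shiftPS_apply, Polynomial.constantCoeff_coe, coeff_zero_eq_eval_zero, eval_comp]
  simp

lemma order_shiftPS (θ : K) (c : K[X]) (hc : c ≠ 0) : (shiftPS θ c).order ≤ (c.natDegree : ℕ∞) := by
  apply PowerSeries.order_le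
  rw [shiftPS_apply, Polynomial.coeff_coe]
  have h1 : (c.comp (X + C θ)).natDegree = c.natDegree := by
    rw [natDegree_comp, natDegree_X_add_C, mul_one]
  have h2 : c.comp (X + C θ) ≠ 0 := by
    intro h
    apply hc
    apply shiftPS_injective θ
    rw [shiftPS_apply, h]; simp
  rw [← h1]
  exact leadingCoeff_ne_zero.2 h2

lemma exists_root_ps (G : K[X][X]) (hG : G.Monic) (θ y : K)
    (h0 : (G.map (evalRingHom θ)).eval y = 0)
    (h1 : (derivative (G.map (evalRingHom θ))).eval y ≠ 0) :
    ∃ s : PowerSeries K, G.eval₂ (shiftPS θ) s = 0 := by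
  have hcomp : (PowerSeries.constantCoeff (R := K)).comp (shiftPS θ) = evalRingHom θ := by
    ext c
    · simp [constantCoeff_shiftPS]
    · simp [constantCoeff_shiftPS]
  have hkey : ∀ P : K[X][X], PowerSeries.constantCoeff ((P.map (shiftPS θ)).eval (PowerSeries.C y)) =
      (P.map (evalRingHom θ)).eval y := by
    intro P
    rw [eval_map, hom_eval₂, hcomp, PowerSeries.constantCoeff_C, eval_map]
  obtain ⟨s, hs, -⟩ := HenselianRing.is_henselian (I := (Ideal.span {PowerSeries.X} : Ideal (PowerSeries K)))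
    (G.map (shiftPS θ)) (hG.map _) (PowerSeries.C y) (by
      rw [Ideal.mem_span_singleton, PowerSeries.X_dvd_iff, hkey, h0]) (by
      apply IsUnit.map
      rw [derivative_map, PowerSeries.isUnit_iff_constantCoeff, hkey, isUnit_iff_ne_zero,
        ← derivative_map]
      exact h1)
  exact ⟨s, by rw [← eval_map]; exact hs⟩

/-- the monomials `X^e Y^b` -/
noncomputable def mon (E D : ℕ) (x : Fin E × Fin D) : K[X][X] :=
  Polynomial.monomial (x.2 : ℕ) (Polynomial.monomial (x.1 : ℕ) 1)

/-- linear combinations of monomials -/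
noncomputable def monComb (E D : ℕ) : (Fin E × Fin D → K) →ₗ[K] K[X][X] :=
  Fintype.linearCombination K (mon E D)

lemma monComb_apply (E D : ℕ) (c : Fin E × Fin D → K) :
    monComb E D c = ∑ x, c x • mon E D x := by
  simp [monComb, Fintype.linearCombination_apply]

lemma monComb_coeff (E D : ℕ) (c : Fin E × Fin D → K) (e b : ℕ) (he : e < E) (hb : b < D) :
    ((monComb E D c).coeff b).coeff e = c (⟨e, he⟩, ⟨b, hb⟩) := by
  rw [monComb_apply, finsetSum_coeff, finsetSum_coeff]
  rw [Finset.sum_eq_single (⟨e, he⟩, ⟨b, hb⟩)]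
  · simp [mon]
  · rintro ⟨x1, x2⟩ _ hx
    simp only [mon, coeff_smul, coeff_monomial]
    by_cases h : (x2 : ℕ) = b
    · rw [if_pos h, coeff_monomial, if_neg, smul_zero]
      intro h'
      apply hx
      ext
      · exact h'
      · exact h
    · rw [if_neg h]; simp
  · simp

lemma monComb_injective (E D : ℕ) : Function.Injective (monComb (K := K) E D) := by
  rw [injective_iff_map_eq_zero]
  intro c hc
  ext ⟨x1, x2⟩
  have := monComb_coeff E D c x1 x2 x1.2 x2.2
  rw [hc] at this
  simpa using this.symm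

lemma wt_mon (w E D : ℕ) (x : Fin E × Fin D) : Wt w (E + w * D) (mon (K := K) E D x) := by
  apply Wt.monomial
  have h1 := x.1.2
  have h2 : w * (x.2 : ℕ) ≤ w * D := Nat.mul_le_mul_left _ x.2.2.le
  have h3 := natDegree_monomial_le (R := K) (1 : K) (m := (x.1 : ℕ))
  omega

lemma Wt.smul {w N : ℕ} {P : K[X][X]} (h : Wt w N P) (c : K) : Wt w N (c • P) := by
  intro b hb
  rw [coeff_smul] at hb ⊢
  have h1 : P.coeff b ≠ 0 := by rintro h; rw [h, smul_zero] at hb; exact hb rfl
  have h2 := h b h1
  have h3 := natDegree_smul_le c (P.coeff b)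
  omega

lemma wt_monComb (w E D : ℕ) (c : Fin E × Fin D → K) : Wt w (E + w * D) (monComb E D c) := by
  rw [monComb_apply]
  exact Wt.sum _ _ fun x _ => (wt_mon w E D x).smul _

lemma degree_monComb_lt (E D : ℕ) (c : Fin E × Fin D → K) : (monComb E D c).degree < D := by
  rw [degree_lt_iff_coeff_zero]
  intro m hm
  rw [monComb_apply, finsetSum_coeff]
  apply Finset.sum_eq_zero
  intro x _
  rw [coeff_smul, mon, coeff_monomial, if_neg (by have := x.2.2; omega), smul_zero]

/-- linear map: coefficients `X^e Y^(b+1)` of the remainder of `P * a` modulo `G` -/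
noncomputable def remCoeff (G a : K[X][X]) (B N : ℕ) : K[X][X] →ₗ[K] (Fin B × Fin N → K) :=
  LinearMap.pi fun x => (lcoeff K (x.2 : ℕ)).comp
    ((((lcoeff K[X] ((x.1 : ℕ) + 1)).comp (modByMonicHom G)).restrictScalars K).comp
      (LinearMap.mulRight K a))

lemma remCoeff_apply (G a : K[X][X]) (B N : ℕ) (P : K[X][X]) (x : Fin B × Fin N) :
    remCoeff G a B N P x = (((P * a) %ₘ G).coeff ((x.1 : ℕ) + 1)).coeff (x.2 : ℕ) := by
  simp [remCoeff, modByMonicHom]

/-- `a` nonzero of small `Y`-degree: the order of its power series expansion at a point of the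
curve is bounded in terms of the weight. -/
lemma order_bound (G : K[X][X]) (hG : G.Monic) (hirr : Irreducible G) (w : ℕ)
    (hGw : Wt w (w * G.natDegree) G) (θ : K) (s : PowerSeries K) (hs : G.eval₂ (shiftPS θ) s = 0)
    (a : K[X][X]) (ha0 : a ≠ 0) (hadeg : a.degree < G.degree) (N : ℕ) (haw : Wt w N a) :
    (a.eval₂ (shiftPS θ) s).order ≤ ((G.natDegree * (w * G.natDegree + N + 1) : ℕ) : ℕ∞) := by
  set D := G.natDegree with hD
  have hDpos : 0 < D := by
    by_contra h
    have h0 : G.natDegree = 0 := by omega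
    have := (hG.natDegree_eq_zero).1 h0
    rw [this] at hirr
    exact not_irreducible_one hirr
  set E := (D - 1) * (w * D + N + 1) + 1 with hE
  set N' := E + w * D + N with hN'
  let Φ : (Fin E × Fin D → K) →ₗ[K] (Fin (D - 1) × Fin (N' + 1) → K) :=
    (remCoeff G a (D - 1) (N' + 1)).comp (monComb E D)
  have hlt : Module.finrank K (Fin (D - 1) × Fin (N' + 1) → K) <
      Module.finrank K (Fin E × Fin D → K) := by
    rw [Module.finrank_fintype_fun_eq_card, Module.finrank_fintype_fun_eq_card]
    simp only [Fintype.card_prod, Fintype.card_fin]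
    obtain ⟨d, hd⟩ : ∃ d, D = d + 1 := ⟨D - 1, by omega⟩
    have h1 : D - 1 = d := by omega
    rw [hN', hE, h1]
    rw [hd]
    nlinarith
  obtain ⟨c, hc, hc0⟩ : ∃ c ∈ LinearMap.ker Φ, c ≠ 0 := by
    rw [← Submodule.ne_bot_iff]
    exact LinearMap.ker_ne_bot_of_finrank_lt hlt
  set v := monComb E D c with hv
  have hv0 : v ≠ 0 := by
    intro h; apply hc0; apply monComb_injective (K := K) E D; rw [← hv, h, map_zero]
  have hvdeg : v.degree < G.degree := by
    rw [degree_eq_natDegree hG.ne_zero]; exact degree_monComb_lt E D c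
  set T := (v * a) %ₘ G with hT
  have hTw : Wt w N' T := by
    apply Wt.modByMonic hG hGw
    exact ((wt_monComb w E D c).mul haw).mono le_rfl
  have hTdeg : T.degree < G.degree := degree_modByMonic_lt _ hG
  have hTcoeff : ∀ b, T.coeff (b + 1) = 0 := by
    intro b
    by_cases hb : b < D - 1
    · ext e
      by_cases he : e < N' + 1
      · have h1 : Φ c (⟨b, hb⟩, ⟨e, he⟩) = 0 := by
          rw [LinearMap.mem_ker.1 hc]; rfl
        simp only [Φ, LinearMap.comp_apply, remCoeff_apply] at h1
        rw [coeff_zero]; exact h1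
      · rw [coeff_eq_zero_of_natDegree_lt (lt_of_lt_of_le (hTw.coeff_natDegree_lt _) (not_lt.1 he))]
        simp
    · apply coeff_eq_zero_of_degree_lt
      refine hTdeg.trans_le ?_
      rw [degree_eq_natDegree hG.ne_zero]
      exact_mod_cast (by omega : G.natDegree ≤ b + 1)
  have hTC : T = C (T.coeff 0) := by
    ext1 b
    cases b with
    | zero => simp
    | succ b => rw [hTcoeff, coeff_C, if_neg (by omega)]
  have hτ : v.eval₂ (shiftPS θ) s * a.eval₂ (shiftPS θ) s = shiftPS θ (T.coeff 0) := by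
    rw [← eval₂_mul, ← modByMonic_add_div (v * a) G, eval₂_add, eval₂_mul, hs, zero_mul, add_zero,
      ← hT, hTC]
    simp
  have hinj : ∀ P : K[X][X], P ≠ 0 → P.degree < G.degree → P.eval₂ (shiftPS θ) s ≠ 0 :=
    fun P hP hdeg h => hP (inj_of_root (shiftPS θ) (shiftPS_injective θ) G hG hirr s hs P h hdeg)
  have hv1 := hinj v hv0 hvdeg
  have ha1 := hinj a ha0 hadeg
  have hT0 : T.coeff 0 ≠ 0 := by
    intro h
    rw [h, map_zero] at hτ
    exact (mul_ne_zero hv1 ha1) hτ
  have h1 := order_shiftPS θ (T.coeff 0) hT0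
  rw [← hτ, PowerSeries.order_mul] at h1
  refine le_trans le_add_self (h1.trans ?_)
  have h2 : (T.coeff 0).natDegree ≤ N' := by
    have := hTw.coeff_natDegree_lt 0; omega
  have h3 : N' ≤ D * (w * D + N + 1) := by
    obtain ⟨d, hd⟩ : ∃ d, D = d + 1 := ⟨D - 1, by omega⟩
    have h1 : D - 1 = d := by omega
    rw [hN', hE, h1, hd]
    nlinarith
  exact_mod_cast h2.trans h3

end Pool.Agent.MooreExp
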