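import Mathlib
import Pool.Agent.MooreExp.Curve

set_option autoImplicit false

open Polynomial

namespace Pool.Agent.MooreExp

lemma divX_iter_coeff {R : Type*} [CommRing R] (P : R[X]) (m n : ℕ) :
    (divX^[m] P).coeff n = P.coeff (n + m) := by
  induction m generalizing n with
  | zero => simp
  | succ m ih =>
    rw [Function.iterate_succ_apply', coeff_divX, ih]
    congr 1; omega

lemma divided_diff {R : Type*} [CommRing R] (y z : R) :
    ∀ (n : ℕ) (P : R[X]), P.natDegree ≤ n →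
      (z - y) * ∑ c ∈ Finset.range n, (divX^[c + 1] P).eval y * z ^ c = P.eval z - P.eval y := by
  intro n
  induction n with
  | zero =>
    intro P hP
    rw [eq_C_of_natDegree_le_zero hP]
    simp
  | succ n ih =>
    intro P hP
    have h1 := ih (divX P) (by rw [natDegree_divX_eq_natDegree_tsub_one]; omega)
    rw [Finset.sum_range_succ']
    simp only [pow_zero, mul_one, zero_add, Function.iterate_one]
    have h2 : ∑ c ∈ Finset.range n, (divX^[c + 1 + 1] P).eval y * z ^ (c + 1) =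
        z * ∑ c ∈ Finset.range n, (divX^[c + 1] (divX P)).eval y * z ^ c := by
      rw [Finset.mul_sum]
      apply Finset.sum_congr rfl
      intro c _
      rw [Function.iterate_succ_apply (f := divX) (n := c + 1)]
      ring
    rw [h2]
    have h3 : ∀ x : R, P.eval x = (divX P).eval x * x + P.coeff 0 := by
      intro x
      conv_lhs => rw [← divX_mul_X_add P]
      simp
    rw [h3 z, h3 y, mul_add]
    linear_combination z * h1

lemma count_ineq (u d J : ℕ) (hJ : 2 * u * (d + 1) + 1 ≤ J) :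
    d * ((d + 1) * ((J + u) * (2 * (d + 1) * (u + 1)) + (J + u) * u + u + 1)) <
      (J * (d + 1)) * ((2 * (d + 1) * (u + 1)) * (d + 1)) := by
  obtain ⟨t, rfl⟩ := Nat.exists_eq_add_of_le hJ
  have key : d * ((2 * u * (d + 1) + 1 + t + u) * (2 * (d + 1) * (u + 1)) +
      (2 * u * (d + 1) + 1 + t + u) * u + u + 1) <
      (2 * u * (d + 1) + 1 + t) * ((2 * (d + 1) * (u + 1)) * (d + 1)) := by
    ring_nf
    nlinarith [Nat.zero_le u, Nat.zero_le d, Nat.zero_le t, Nat.zero_le (u*d), Nat.zero_le (u*d*t), Nat.zero_le (u^2*d), Nat.zero_le (u^2*d^2),Nat.zero_le (u*d^2), Nat.zero_le (d*t), Nat.zero_le (u*t)]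
  nlinarith [key]

lemma Wt.divX_iter {R : Type*} [CommRing R] {w N : ℕ} {P : R[X][X]} (h : Wt w N P) (m : ℕ) :
    Wt w N (divX^[m] P) := by
  intro b hb
  rw [divX_iter_coeff] at hb ⊢
  have := h _ hb
  have h2 : w * b ≤ w * (b + m) := Nat.mul_le_mul_left _ (by omega)
  omega

variable {K : Type*} [Field K]

/-- `X^(h i + j) Y^(h b)` -/
noncomputable def monH (h I J D : ℕ) (x : Fin J × (Fin I × Fin D)) : K[X][X] :=
  Polynomial.monomial (h * (x.2.2 : ℕ)) (Polynomial.monomial (h * (x.2.1 : ℕ) + (x.1 : ℕ)) 1)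

lemma wt_monH (w h I J D : ℕ) (hJ : J ≤ h) (x : Fin J × (Fin I × Fin D)) :
    Wt w (h * I + h * (w * D)) (monH (K := K) h I J D x) := by
  apply Wt.monomial
  have h1 := x.1.2
  have h2 := x.2.1.2
  have h3 := x.2.2.2
  have h4 := natDegree_monomial_le (R := K) (1 : K) (m := h * (x.2.1 : ℕ) + (x.1 : ℕ))
  have h5 : h * (x.2.1 : ℕ) + (x.1 : ℕ) ≤ h * I := by
    calc h * (x.2.1 : ℕ) + (x.1 : ℕ) ≤ h * (x.2.1 : ℕ) + h := by omega
      _ = h * ((x.2.1 : ℕ) + 1) := by ring
      _ ≤ h * I := Nat.mul_le_mul_left _ h2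
  have h6 : w * (h * (x.2.2 : ℕ)) ≤ h * (w * D) := by
    calc w * (h * (x.2.2 : ℕ)) = h * (w * (x.2.2 : ℕ)) := by ring
      _ ≤ h * (w * D) := Nat.mul_le_mul_left _ (Nat.mul_le_mul_left _ h3.le)
  omega

/-- the polynomials `Ψ_c` -/
noncomputable def Psi (h I J D : ℕ) (c : Fin D) :
    ((Fin J × Fin D) × (Fin I × Fin D) → K) →ₗ[K] K[X][X] :=
  (Fintype.linearCombination K (monH h I J D)).comp
    (LinearMap.funLeft K K (fun x : Fin J × (Fin I × Fin D) => ((x.1, c), x.2)))

lemma Psi_apply (h I J D : ℕ) (c : Fin D) (C : (Fin J × Fin D) × (Fin I × Fin D) → K) :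
    Psi h I J D c C = ∑ x : Fin J × (Fin I × Fin D), C ((x.1, c), x.2) • monH h I J D x := by
  simp [Psi, Fintype.linearCombination_apply, LinearMap.funLeft_apply]

lemma wt_Psi (w h I J D : ℕ) (hJ : J ≤ h) (c : Fin D) (C : (Fin J × Fin D) × (Fin I × Fin D) → K) :
    Wt w (h * I + h * (w * D)) (Psi h I J D c C) := by
  rw [Psi_apply]
  exact Wt.sum _ _ fun x _ => (wt_monH w h I J D hJ x).smul _

/-- first pigeonhole: a nonzero system of `Ψ_c` congruent to `η_c Ψ_{D-1}` modulo `G` -/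
lemma exists_system (G : K[X][X]) (hG : G.Monic) (d w : ℕ) (hD : G.natDegree = d + 1)
    (hGw : Wt w (w * (d + 1)) G) (J h I : ℕ) (hI : I = 2 * (d + 1) * (w * (d + 1) + 1))
    (hJ : 2 * (w * (d + 1)) * (d + 1) + 1 ≤ J) (hh : h = J + w * (d + 1)) :
    ∃ C : (Fin J × Fin (d + 1)) × (Fin I × Fin (d + 1)) → K, C ≠ 0 ∧
      ∀ c : Fin (d + 1), (Psi h I J (d + 1) c C -
        divX^[(c : ℕ) + 1] G * Psi h I J (d + 1) (Fin.last d) C) %ₘ G = 0 := by
  set N1 := h * I + h * (w * (d + 1)) + w * (d + 1) + 1 with hN1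
  let rem : K[X][X] →ₗ[K] K[X][X] := (modByMonicHom G).restrictScalars K
  let Φ : ((Fin J × Fin (d + 1)) × (Fin I × Fin (d + 1)) → K) →ₗ[K]
      (Fin d × (Fin (d + 1) × Fin N1) → K) :=
    LinearMap.pi fun x => ((lcoeff K (x.2.2 : ℕ)).comp
      ((lcoeff K[X] (x.2.1 : ℕ)).restrictScalars K)).comp
      (rem.comp (Psi h I J (d + 1) x.1.castSucc -
        (LinearMap.mulLeft K (divX^[(x.1 : ℕ) + 1] G)).comp (Psi h I J (d + 1) (Fin.last d))))
  have hΦ : ∀ C x, Φ C x = (((Psi h I J (d + 1) x.1.castSucc C -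
        divX^[(x.1 : ℕ) + 1] G * Psi h I J (d + 1) (Fin.last d) C) %ₘ G).coeff (x.2.1 : ℕ)).coeff
          (x.2.2 : ℕ) := by
    intro C x
    simp [Φ, rem, modByMonicHom]
  have hlt : Module.finrank K (Fin d × (Fin (d + 1) × Fin N1) → K) <
      Module.finrank K ((Fin J × Fin (d + 1)) × (Fin I × Fin (d + 1)) → K) := by
    rw [Module.finrank_fintype_fun_eq_card, Module.finrank_fintype_fun_eq_card]
    simp only [Fintype.card_prod, Fintype.card_fin]
    rw [hN1, hh, hI]
    exact count_ineq (w * (d + 1)) d J hJ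
  obtain ⟨C, hC, hC0⟩ : ∃ C ∈ LinearMap.ker Φ, C ≠ 0 := by
    rw [← Submodule.ne_bot_iff]
    exact LinearMap.ker_ne_bot_of_finrank_lt hlt
  refine ⟨C, hC0, ?_⟩
  intro c
  refine Fin.lastCases ?_ (fun c => ?_) c
  · have h1 : divX^[d + 1] G = 1 := by
      ext1 n
      rw [divX_iter_coeff]
      cases n with
      | zero => rw [zero_add, ← hD, coeff_natDegree, hG.leadingCoeff]; simp
      | succ n => rw [coeff_eq_zero_of_natDegree_lt (by omega), coeff_one, if_neg (by omega)]
    rw [Fin.val_last, h1, one_mul, sub_self, zero_modByMonic]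
  · set T := (Psi h I J (d + 1) c.castSucc C -
        divX^[(c : ℕ) + 1] G * Psi h I J (d + 1) (Fin.last d) C) %ₘ G with hT
    have hJh : J ≤ h := by omega
    have hGw' : Wt w (w * G.natDegree) G := by rw [hD]; exact hGw
    have hTw : Wt w (N1 - 1) T := by
      apply Wt.modByMonic hG hGw'
      apply Wt.sub
      · exact (wt_Psi w h I J (d + 1) hJh _ C).mono (by omega)
      · exact ((hGw.divX_iter _).mul (wt_Psi w h I J (d + 1) hJh _ C)).mono (by omega)
    have hTdeg : T.degree < G.degree := degree_modByMonic_lt _ hG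
    change T = 0
    ext b e
    rw [coeff_zero, coeff_zero]
    by_cases hb : b < d + 1
    · by_cases he : e < N1
      · have h1 : Φ C (c, (⟨b, hb⟩, ⟨e, he⟩)) = 0 := by
          rw [LinearMap.mem_ker.1 hC]; rfl
        rw [hΦ] at h1
        exact h1
      · apply coeff_eq_zero_of_natDegree_lt
        have := hTw.coeff_natDegree_lt b
        omega
    · rw [coeff_eq_zero_of_degree_lt (n := b), coeff_zero]
      refine hTdeg.trans_le ?_
      rw [degree_eq_natDegree hG.ne_zero, hD]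
      exact_mod_cast (not_lt.1 hb)

end Pool.Agent.MooreExp
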