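import Mathlib
import Pool.Agent.MooreExp.Stepanov

set_option autoImplicit false

open Polynomial

namespace Pool.Agent.MooreExp

variable {L Ω : Type*} [Field L] [Field Ω] [Algebra L Ω]

/-- evaluation of a bivariate polynomial over `L` at `X = θ ∈ L`, `Y = y ∈ Ω` -/
noncomputable def ev (θ : L) (y : Ω) : L[X][X] →+* Ω :=
  eval₂RingHom ((algebraMap L Ω).comp (evalRingHom θ)) y

lemma ev_apply (θ : L) (y : Ω) (P : L[X][X]) :
    ev θ y P = P.eval₂ ((algebraMap L Ω).comp (evalRingHom θ)) y := rfl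

lemma ev_eq (θ : L) (y : Ω) (P : L[X][X]) :
    ev θ y P = (P.map ((algebraMap L Ω).comp (evalRingHom θ))).eval y := by
  rw [ev_apply, eval_map]

lemma ev_C (θ : L) (y : Ω) (c : L[X]) : ev θ y (C c) = algebraMap L Ω (c.eval θ) := by
  simp [ev_apply]

lemma ev_smul (θ : L) (y : Ω) (c : L) (P : L[X][X]) : ev θ y (c • P) = algebraMap L Ω c * ev θ y P := by
  have : c • P = C (C c) * P := by
    ext1 n; simp [Polynomial.smul_eq_C_mul]
  rw [this, map_mul, ev_C, eval_C]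

lemma ev_mon (θ : L) (y : Ω) (E D : ℕ) (x : Fin E × Fin D) :
    ev θ y (mon E D x) = (algebraMap L Ω θ) ^ (x.1 : ℕ) * y ^ (x.2 : ℕ) := by
  simp [ev_apply, mon, eval₂_monomial]

lemma ev_monH (θ : L) (y : Ω) (h I J D : ℕ) (x : Fin J × (Fin I × Fin D)) :
    ev θ y (monH h I J D x) =
      (algebraMap L Ω θ) ^ (h * (x.2.1 : ℕ) + (x.1 : ℕ)) * y ^ (h * (x.2.2 : ℕ)) := by
  simp [ev_apply, monH, eval₂_monomial]

lemma ev_frob (p : ℕ) [Fact p.Prime] [CharP Ω p] (N : ℕ) [Finite L] (hN : Nat.card L = p ^ N)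
    (θ : L) (y : Ω) (P : L[X][X]) : ev θ (y ^ (p ^ N)) P = (ev θ y P) ^ (p ^ N) := by
  have : ExpChar Ω p := ExpChar.prime Fact.out
  have h1 : (iterateFrobenius Ω p N).comp (ev θ y) = ev θ (y ^ (p ^ N)) := by
    apply Polynomial.ringHom_ext
    · intro c
      rw [RingHom.comp_apply, ev_C, ev_C, iterateFrobenius_def, ← map_pow]
      congr 1
      have : Fintype L := Fintype.ofFinite L
      rw [← hN, Nat.card_eq_fintype_card]
      exact FiniteField.pow_card _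
    · simp [ev_apply, iterateFrobenius_def]
  rw [← h1]; rfl

lemma ev_psi_sum (θ : L) (y z : Ω) (G : L[X][X]) (hG : G.Monic) (d : ℕ) (hD : G.natDegree = d + 1)
    (J h I : ℕ) (C : (Fin J × Fin (d + 1)) × (Fin I × Fin (d + 1)) → L)
    (hC : ∀ c : Fin (d + 1), (Psi h I J (d + 1) c C -
        divX^[(c : ℕ) + 1] G * Psi h I J (d + 1) (Fin.last d) C) %ₘ G = 0)
    (hy : ev θ y G = 0) (hz : ev θ z G = 0) (hyz : z ≠ y) :
    ∑ c : Fin (d + 1), ev θ y (Psi h I J (d + 1) c C) * z ^ (c : ℕ) = 0 := by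
  have h1 : ∀ c : Fin (d + 1), ev θ y (Psi h I J (d + 1) c C) =
      ev θ y (divX^[(c : ℕ) + 1] G) * ev θ y (Psi h I J (d + 1) (Fin.last d) C) := by
    intro c
    have h2 := (modByMonic_eq_zero_iff_dvd hG).1 (hC c)
    obtain ⟨S, hS⟩ := h2
    have h3 := congrArg (ev θ y) hS
    rw [map_mul, hy, zero_mul, map_sub, map_mul, sub_eq_zero] at h3
    exact h3
  set f : L[X] →+* Ω := (algebraMap L Ω).comp (evalRingHom θ) with hf
  have h4 : ∀ m, ev θ y (divX^[m] G) = (divX^[m] (G.map f)).eval y := by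
    intro m
    rw [ev_eq]
    congr 1
    ext n
    rw [coeff_map, divX_iter_coeff, divX_iter_coeff, coeff_map]
  have h5 : (z - y) * ∑ c ∈ Finset.range (d + 1), (divX^[c + 1] (G.map f)).eval y * z ^ c = 0 := by
    rw [divided_diff y z (d + 1) (G.map f) (by rw [← hD]; exact natDegree_map_le)]
    rw [ev_eq] at hy hz
    rw [hy, hz, sub_zero]
  have h6 : ∑ c ∈ Finset.range (d + 1), (divX^[c + 1] (G.map f)).eval y * z ^ c = 0 := by
    rcases mul_eq_zero.1 h5 with h | h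
    · exact absurd (sub_eq_zero.1 h) hyz
    · exact h
  rw [Finset.sum_range] at h6
  calc ∑ c : Fin (d + 1), ev θ y (Psi h I J (d + 1) c C) * z ^ (c : ℕ)
      = ev θ y (Psi h I J (d + 1) (Fin.last d) C) *
        ∑ c : Fin (d + 1), (divX^[(c : ℕ) + 1] (G.map f)).eval y * z ^ (c : ℕ) := by
        rw [Finset.mul_sum]
        apply Finset.sum_congr rfl
        intro c _
        rw [h1, h4]; ring
    _ = 0 := by rw [h6, mul_zero]

/-- the auxiliary polynomial -/
noncomputable def gPoly (I J D Q' : ℕ) (C' : (Fin J × Fin D) × (Fin I × Fin D) → L) : L[X][X] :=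
  ∑ k : Fin J × Fin D, monComb I D (fun x => C' (k, x)) * (mon J D k) ^ Q'

lemma gPoly_vanish (p : ℕ) [Fact p.Prime] [CharP Ω p] (N μ : ℕ) [Finite L]
    (hN : Nat.card L = p ^ N) (Q' : ℕ) (hQ' : p ^ N = p ^ μ * Q')
    (θ : L) (y : Ω) (G : L[X][X]) (hG : G.Monic) (d : ℕ) (hD : G.natDegree = d + 1)
    (J I : ℕ) (C C' : (Fin J × Fin (d + 1)) × (Fin I × Fin (d + 1)) → L)
    (hC : ∀ c : Fin (d + 1), (Psi (p ^ μ) I J (d + 1) c C -
        divX^[(c : ℕ) + 1] G * Psi (p ^ μ) I J (d + 1) (Fin.last d) C) %ₘ G = 0)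
    (hCC' : ∀ x, C x = C' x ^ (p ^ μ))
    (hy : ev θ y G = 0) (hyn : y ^ (p ^ N) ≠ y) :
    ev θ y (gPoly I J (d + 1) Q' C') = 0 := by
  have hz : ev θ (y ^ (p ^ N)) G = 0 := by
    rw [ev_frob p N hN, hy, zero_pow (pow_ne_zero _ (Fact.out (p := p.Prime)).ne_zero)]
  have hθ : (algebraMap L Ω θ) ^ (p ^ N) = algebraMap L Ω θ := by
    rw [← map_pow]
    congr 1
    have : Fintype L := Fintype.ofFinite L
    rw [← hN, Nat.card_eq_fintype_card]
    exact FiniteField.pow_card _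
  have hsum := ev_psi_sum θ y (y ^ (p ^ N)) G hG d hD J (p ^ μ) I C hC hy hz hyn
  have hpow : (ev θ y (gPoly I J (d + 1) Q' C')) ^ (p ^ μ) = 0 := by
    rw [← hsum, gPoly, map_sum, sum_pow_char_pow]
    rw [Fintype.sum_prod_type_right]
    apply Finset.sum_congr rfl
    intro c _
    rw [Psi_apply, map_sum, Finset.sum_mul, Fintype.sum_prod_type]
    apply Finset.sum_congr rfl
    intro j _
    rw [map_mul, map_pow, ev_mon, mul_pow, ← pow_mul, mul_comm Q', ← hQ', mul_pow, ← pow_mul,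
      ← pow_mul, mul_comm (j : ℕ), pow_mul _ _ (j : ℕ), hθ, monComb_apply, map_sum,
      sum_pow_char_pow, Finset.sum_mul]
    apply Finset.sum_congr rfl
    intro x _
    rw [ev_smul, ev_smul, ev_mon, ev_monH, mul_pow, ← map_pow, ← hCC', mul_pow, ← pow_mul,
      ← pow_mul]
    ring
  exact pow_eq_zero_iff (pow_ne_zero _ (Fact.out (p := p.Prime)).ne_zero) |>.1 hpow

end Pool.Agent.MooreExp
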