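import Mathlib
import Pool.Agent.MooreExp.Stepanov2

set_option autoImplicit false

open Polynomial

namespace Pool.Agent.MooreExp

lemma mem_range_of_pow_card {L Ω : Type*} [Field L] [Finite L] [Field Ω] [Algebra L Ω] (y : Ω)
    (hy : y ^ (Nat.card L) = y) : ∃ x : L, algebraMap L Ω x = y := by
  have : Fintype L := Fintype.ofFinite L
  rw [Nat.card_eq_fintype_card] at hy
  have h1 : ((X ^ Fintype.card L - X : L[X]).roots.map (algebraMap L Ω)) =
      ((X ^ Fintype.card L - X : L[X]).map (algebraMap L Ω)).roots := by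
    apply roots_map_of_injective_of_card_eq_natDegree (algebraMap L Ω).injective
    rw [FiniteField.roots_X_pow_card_sub_X, ← Finset.card_def, Finset.card_univ,
      FiniteField.X_pow_card_sub_X_natDegree_eq L Fintype.one_lt_card]
  have h2 : y ∈ ((X ^ Fintype.card L - X : L[X]).map (algebraMap L Ω)).roots := by
    rw [Polynomial.map_sub, Polynomial.map_pow, map_X, mem_roots
      (FiniteField.X_pow_card_sub_X_ne_zero Ω Fintype.one_lt_card)]
    simp [hy]
  rw [← h1, FiniteField.roots_X_pow_card_sub_X] at h2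
  simpa using h2

lemma wt_mon' {K : Type*} [Field K] (w E d : ℕ) (x : Fin E × Fin (d + 1)) :
    Wt w ((E - 1) + w * d) (mon (K := K) E (d + 1) x) := by
  apply Wt.monomial
  have h1 := x.1.2
  have h2 : w * (x.2 : ℕ) ≤ w * d := Nat.mul_le_mul_left _ (by have := x.2.2; omega)
  have h3 := natDegree_monomial_le (R := K) (1 : K) (m := (x.1 : ℕ))
  omega

lemma wt_gPoly {L : Type*} [Field L] (w I J d Q' : ℕ)
    (C' : (Fin J × Fin (d + 1)) × (Fin I × Fin (d + 1)) → L) :
    Wt w ((I + w * (d + 1)) + Q' * ((J - 1) + w * d)) (gPoly I J (d + 1) Q' C') := by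
  apply Wt.sum
  intro k _
  exact (wt_monComb w I (d + 1) _).mul ((wt_mon' w J d k).pow Q')

/-- `G` divides the auxiliary polynomial -/
lemma dvd_of_vanish {L Ω : Type*} [Field L] [Field Ω] [Algebra L Ω] [IsAlgClosed Ω]
    (G : L[X][X]) (hG : G.Monic) (w : ℕ) (hGw : Wt w (w * G.natDegree) G)
    (g : L[X][X]) (W : ℕ) (hg : Wt w W g) (Θ : Finset L)
    (hsep : ∀ θ ∈ Θ, (G.map (evalRingHom θ)).Separable)
    (hΘ : W < Θ.card)
    (hvan : ∀ θ ∈ Θ, ∀ y : Ω, ev θ y G = 0 → ev θ y g = 0) : g %ₘ G = 0 := by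
  classical
  set r := g %ₘ G with hr
  have hrw : Wt w W r := Wt.modByMonic hG hGw hg
  have hrdeg : r.degree < G.degree := degree_modByMonic_lt _ hG
  have hrv : ∀ θ ∈ Θ, r.map (evalRingHom θ) = 0 := by
    intro θ hθ
    have h1 : ∀ y : Ω, ev θ y G = 0 → ev θ y r = 0 := by
      intro y hy
      have h2 := hvan θ hθ y hy
      rw [← modByMonic_add_div g G, map_add, map_mul, hy, zero_mul, add_zero] at h2
      exact h2
    by_contra hne
    have hmon : (G.map (evalRingHom θ)).Monic := hG.map _
    have hsplit : ((G.map (evalRingHom θ)).map (algebraMap L Ω)).Splits := IsAlgClosed.splits _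
    have hcard : ((G.map (evalRingHom θ)).map (algebraMap L Ω)).roots.card =
        G.natDegree := by
      rw [← hsplit.natDegree_eq_card_roots, natDegree_map, hG.natDegree_map]
    have hnd : ((G.map (evalRingHom θ)).map (algebraMap L Ω)).roots.Nodup :=
      nodup_roots (hsep θ hθ).map
    have hrne : (r.map (evalRingHom θ)).map (algebraMap L Ω) ≠ 0 := by
      rw [Ne, Polynomial.map_eq_zero]; exact hne
    have hle : ((G.map (evalRingHom θ)).map (algebraMap L Ω)).roots ≤
        ((r.map (evalRingHom θ)).map (algebraMap L Ω)).roots := by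
      rw [Multiset.le_iff_subset hnd]
      intro y hy
      rw [mem_roots hrne, IsRoot.def]
      rw [mem_roots (hmon.map _).ne_zero, IsRoot.def] at hy
      rw [Polynomial.map_map] at hy ⊢
      rw [← ev_eq] at hy ⊢
      exact h1 y hy
    have h3 := Multiset.card_le_card hle
    rw [hcard] at h3
    have h4 := card_roots' ((r.map (evalRingHom θ)).map (algebraMap L Ω))
    have h5 : ((r.map (evalRingHom θ)).map (algebraMap L Ω)).natDegree ≤ r.natDegree :=
      natDegree_map_le.trans natDegree_map_le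
    have h6 : r.natDegree < G.natDegree := by
      apply natDegree_lt_natDegree _ hrdeg
      rintro h; rw [h] at hne; simp at hne
    omega
  ext1 b
  rw [coeff_zero]
  apply eq_zero_of_natDegree_lt_card_of_eval_eq_zero' _ Θ
  · intro θ hθ
    have := congrArg (fun P => P.coeff b) (hrv θ hθ)
    simpa [coeff_map] using this
  · have := hrw.coeff_natDegree_lt b
    omega

/-- independence: the auxiliary polynomial is not divisible by `G` -/
lemma coeff_zero_of_dvd {K : Type*} [Field K] (p : ℕ) [Fact p.Prime] [CharP K p] (ν : ℕ)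
    (G : K[X][X]) (hG : G.Monic) (hirr : Irreducible G) (w d : ℕ) (hD : G.natDegree = d + 1)
    (hGw : Wt w (w * G.natDegree) G) (θ y : K)
    (h0 : (G.map (evalRingHom θ)).eval y = 0)
    (h1 : (derivative (G.map (evalRingHom θ))).eval y ≠ 0)
    (I J : ℕ) (C' : (Fin J × Fin (d + 1)) × (Fin I × Fin (d + 1)) → K)
    (hbig : (d + 1) * (w * (d + 1) + (I + w * (d + 1)) + 1) < p ^ ν)
    (hdvd : G ∣ gPoly I J (d + 1) (p ^ ν) C') : C' = 0 := by
  classical
  obtain ⟨s, hs⟩ := exists_root_ps G hG θ y h0 h1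
  have hGdeg : G.degree = ((d + 1 : ℕ) : WithBot ℕ) := by
    rw [degree_eq_natDegree hG.ne_zero, hD]
  have hinj : ∀ P : K[X][X], P.eval₂ (shiftPS θ) s = 0 → P.degree < G.degree → P = 0 :=
    fun P h hdeg => inj_of_root (shiftPS θ) (shiftPS_injective θ) G hG hirr s hs P h hdeg
  let τ : K[X][X] →+* PowerSeries K := eval₂RingHom (shiftPS θ) s
  have hτsmul : ∀ (c : K) (P : K[X][X]), τ (c • P) = c • τ P := by
    intro c P
    have h2 : c • P = C (C c) * P := by
      ext1 n; simp [Polynomial.smul_eq_C_mul]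
    rw [h2, map_mul]
    have h3 : τ (C (C c)) = PowerSeries.C c := by
      simp [τ, shiftPS_apply]
    rw [h3, PowerSeries.smul_eq_C_mul]
  let τl : K[X][X] →ₗ[K] PowerSeries K :=
    { toFun := τ, map_add' := map_add τ, map_smul' := hτsmul }
  let A : Submodule K (PowerSeries K) := LinearMap.range (τl.comp (monComb I (d + 1)))
  have hA : ∀ a ∈ A, a ≠ 0 → a.order < ((p ^ ν : ℕ) : ℕ∞) := by
    rintro a ⟨c, rfl⟩ ha
    have hP0 : monComb I (d + 1) c ≠ 0 := by
      intro h
      apply ha
      rw [LinearMap.comp_apply, h, map_zero]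
    have h2 := order_bound G hG hirr w hGw θ s hs (monComb I (d + 1) c) hP0
      (by rw [hGdeg]; exact degree_monComb_lt I (d + 1) c) _ (wt_monComb w I (d + 1) c)
    refine lt_of_le_of_lt h2 ?_
    rw [hD]
    exact_mod_cast hbig
  have hsum : ∑ k : Fin J × Fin (d + 1), τ (monComb I (d + 1) (fun x => C' (k, x))) *
      (τ (mon J (d + 1) k)) ^ (p ^ ν) = 0 := by
    obtain ⟨S, hS⟩ := hdvd
    have h2 := congrArg τ hS
    rw [map_mul] at h2
    have h3 : τ G = 0 := hs
    rw [h3, zero_mul, gPoly, map_sum] at h2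
    rw [← h2]
    apply Finset.sum_congr rfl
    intro k _
    rw [map_mul, map_pow]
  have hres := ps_indep p ν A hA _ Finset.univ
    (fun k : Fin J × Fin (d + 1) => τ (monComb I (d + 1) (fun x => C' (k, x))))
    (fun k => τ (mon J (d + 1) k)) rfl
    (fun k _ => ⟨fun x => C' (k, x), rfl⟩)
    (by
      intro c hc k _
      have h2 : τ (monComb J (d + 1) c) = 0 := by
        rw [← hc, monComb_apply, map_sum]
        apply Finset.sum_congr rfl
        intro k _
        rw [hτsmul]
      have h3 := hinj _ h2 (by rw [hGdeg]; exact degree_monComb_lt J (d + 1) c)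
      have h4 : c = 0 := monComb_injective (K := K) J (d + 1) (by rw [h3, map_zero])
      rw [h4]; rfl)
    hsum
  ext ⟨k, x⟩
  have h2 := hinj _ (hres k (Finset.mem_univ _)) (by rw [hGdeg]; exact degree_monComb_lt I (d + 1) _)
  have h3 : (fun x => C' (k, x)) = 0 := monComb_injective (K := K) I (d + 1) (by rw [h2, map_zero])
  exact congrFun h3 x

end Pool.Agent.MooreExp
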