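import Mathlib
import Pool.Agent.MooreExp.Stepanov3

set_option autoImplicit false

open Polynomial

namespace Pool.Agent.MooreExp

lemma mon_map {L Ω : Type*} [Field L] [Field Ω] (f : L →+* Ω) (E D : ℕ) (x : Fin E × Fin D) :
    (mon E D x).map (mapRingHom f) = mon E D x := by
  simp [mon, Polynomial.map_monomial]

lemma smul_map' {L Ω : Type*} [Field L] [Field Ω] (f : L →+* Ω) (c : L) (P : L[X][X]) :
    (c • P).map (mapRingHom f) = f c • P.map (mapRingHom f) := by
  ext1 n
  simp [Polynomial.smul_eq_C_mul]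

lemma gPoly_map {L Ω : Type*} [Field L] [Field Ω] (f : L →+* Ω) (I J D Q' : ℕ)
    (C' : (Fin J × Fin D) × (Fin I × Fin D) → L) :
    (gPoly I J D Q' C').map (mapRingHom f) = gPoly I J D Q' (fun x => f (C' x)) := by
  rw [gPoly, Polynomial.map_sum, gPoly]
  apply Finset.sum_congr rfl
  intro k _
  rw [Polynomial.map_mul, Polynomial.map_pow, mon_map, monComb_apply, monComb_apply,
    Polynomial.map_sum]
  congr 1
  apply Finset.sum_congr rfl
  intro x _
  rw [smul_map', mon_map]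

lemma Wt.map {L Ω : Type*} [Field L] [Field Ω] (f : L →+* Ω) {w N : ℕ} {P : L[X][X]}
    (h : Wt w N P) : Wt w N (P.map (mapRingHom f)) := by
  intro b hb
  rw [coeff_map, coe_mapRingHom] at hb ⊢
  have h1 : P.coeff b ≠ 0 := by
    rintro h; rw [h] at hb; simp at hb
  have h2 := h b h1
  have h3 := natDegree_map_le (p := P.coeff b) (f := f)
  omega

/-- **Existence of points** (Stepanov's method, qualitative form). -/
theorem stepanov (p : ℕ) [Fact p.Prime] (D w c : ℕ) :
    ∃ N0 : ℕ, ∀ (L Ω : Type) [Field L] [Finite L] [CharP L p] [Field Ω] [Algebra L Ω]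
      [IsAlgClosed Ω], N0 ≤ Nat.card L → ∀ G : L[X][X], G.Monic → G.natDegree = D →
      Wt w (w * D) G → Irreducible (G.map (mapRingHom (algebraMap L Ω))) →
      ∀ Θ : Finset L, Nat.card L ≤ Θ.card + c →
      (∀ θ ∈ Θ, (G.map (evalRingHom θ)).Separable) →
      ∃ θ ∈ Θ, ∃ y : L, (G.map (evalRingHom θ)).eval y = 0 := by
  rcases Nat.eq_zero_or_pos D with hD0 | hDpos
  · refine ⟨0, ?_⟩
    intro L Ω _ _ _ _ _ _ _ G hG hGD _ hirr
    exfalso
    have h1 : G = 1 := by
      apply (hG.natDegree_eq_zero).1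
      omega
    rw [h1, Polynomial.map_one] at hirr
    exact not_irreducible_one hirr
  obtain ⟨d, rfl⟩ : ∃ d, D = d + 1 := ⟨D - 1, by omega⟩
  set μ := 2 * (w * (d + 1)) * (d + 1) + 1 + w * (d + 1) with hμ
  set I := 2 * (d + 1) * (w * (d + 1) + 1) with hI
  set J := p ^ μ - w * (d + 1) with hJ
  have hp2 : 2 ≤ p := (Fact.out (p := p.Prime)).two_le
  have hμlt : μ < p ^ μ := Nat.lt_pow_self hp2
  have hJh : p ^ μ = J + w * (d + 1) := by omega
  have hJbig : 2 * (w * (d + 1)) * (d + 1) + 1 ≤ J := by omega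
  set M0 := (I + w * (d + 1) + c) + (d + 1) * (w * (d + 1) + (I + w * (d + 1)) + 1) with hM0
  refine ⟨p ^ μ * (M0 + 1), ?_⟩
  intro L Ω _ _ _ _ _ _ hcard G hG hGD hGw hirr Θ hΘ hsep
  have hchar : CharP Ω p := charP_of_injective_algebraMap (algebraMap L Ω).injective p
  have hEL : ExpChar L p := ExpChar.prime Fact.out
  have hfin : Fintype L := Fintype.ofFinite L
  obtain ⟨N, hNp, hN⟩ := FiniteField.card L p
  have hN' : Nat.card L = p ^ (N : ℕ) := by rw [Nat.card_eq_fintype_card, hN]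
  have hμN : μ ≤ N := by
    by_contra h
    have h1 : p ^ (N : ℕ) < p ^ μ := Nat.pow_lt_pow_right hp2 (by omega)
    rw [hN'] at hcard
    nlinarith
  set ν := (N : ℕ) - μ with hν
  have hQ : p ^ (N : ℕ) = p ^ μ * p ^ ν := by
    rw [← pow_add]; congr 1; omega
  have hbig : M0 + 1 ≤ p ^ ν := by
    rw [hN', hQ] at hcard
    exact Nat.le_of_mul_le_mul_left hcard (by positivity)
  by_contra hcon
  push Not at hcon
  have hGw' : Wt w (w * G.natDegree) G := by rw [hGD]; exact hGw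
  obtain ⟨C, hC0, hC⟩ := exists_system G hG d w hGD hGw J (p ^ μ) I hI hJbig hJh
  set C' : (Fin J × Fin (d + 1)) × (Fin I × Fin (d + 1)) → L :=
    fun x => (iterateFrobeniusEquiv L p μ).symm (C x) with hC'
  have hCC' : ∀ x, C x = C' x ^ (p ^ μ) := by
    intro x
    rw [hC']
    simp only
    rw [← iterateFrobeniusEquiv_def, RingEquiv.apply_symm_apply]
  have hvan : ∀ θ ∈ Θ, ∀ y : Ω, ev θ y G = 0 → ev θ y (gPoly I J (d + 1) (p ^ ν) C') = 0 := by
    intro θ hθ y hy
    apply gPoly_vanish p N μ hN' (p ^ ν) hQ θ y G hG d hGD J I C C' hC hCC' hy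
    intro hyy
    rw [← hN'] at hyy
    obtain ⟨x, rfl⟩ := mem_range_of_pow_card y hyy
    apply hcon θ hθ x
    rw [ev_eq, ← Polynomial.map_map, eval_map_apply] at hy
    exact (map_eq_zero _).1 hy
  have hg := dvd_of_vanish (Ω := Ω) G hG w hGw' (gPoly I J (d + 1) (p ^ ν) C') _
    (wt_gPoly w I J d (p ^ ν) C') Θ hsep (by
      rw [hN', hQ] at hΘ
      have h1 : J - 1 + w * d ≤ p ^ μ - 1 := by
        have : w * (d + 1) = w * d + w := by ring
        omega
      have h2 : p ^ ν * (J - 1 + w * d) ≤ p ^ ν * (p ^ μ - 1) := Nat.mul_le_mul_left _ h1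
      have h3 : p ^ ν * (p ^ μ - 1) + p ^ ν = p ^ μ * p ^ ν := by
        obtain ⟨e, he⟩ : ∃ e, p ^ μ = e + 1 := ⟨p ^ μ - 1, by omega⟩
        rw [he, Nat.add_sub_cancel]; ring
      omega) hvan
  have hdvd : G ∣ gPoly I J (d + 1) (p ^ ν) C' := (modByMonic_eq_zero_iff_dvd hG).1 hg
  have hdvd' : G.map (mapRingHom (algebraMap L Ω)) ∣
      gPoly I J (d + 1) (p ^ ν) (fun x => algebraMap L Ω (C' x)) := by
    rw [← gPoly_map]
    exact Polynomial.map_dvd _ hdvd
  obtain ⟨θ, hθ⟩ : Θ.Nonempty := by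
    rw [← Finset.card_pos]
    have : 1 ≤ p ^ μ := Nat.one_le_pow _ _ (by omega)
    rw [hN', hQ] at hΘ
    nlinarith
  -- a simple root over `Ω`
  set Gθ := (G.map (evalRingHom θ)).map (algebraMap L Ω) with hGθ
  have hGθ' : (G.map (mapRingHom (algebraMap L Ω))).map (evalRingHom (algebraMap L Ω θ)) = Gθ := by
    rw [hGθ, Polynomial.map_map, Polynomial.map_map]
    congr 1
    apply Polynomial.ringHom_ext
    · intro a; simp
    · simp
  have hdegGθ : Gθ.degree ≠ 0 := by
    rw [hGθ, degree_map, hG.degree_map, degree_eq_natDegree hG.ne_zero, hGD]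
    norm_cast
  obtain ⟨y, hy⟩ := IsAlgClosed.exists_root Gθ hdegGθ
  have hsepθ : Gθ.Separable := (hsep θ hθ).map
  have hder : (derivative Gθ).eval y ≠ 0 := hsepθ.eval₂_derivative_ne_zero (RingHom.id Ω) (by
    rw [eval₂_id]; exact hy) |> fun h => by rwa [eval₂_id] at h
  have hzero := coeff_zero_of_dvd p ν (G.map (mapRingHom (algebraMap L Ω))) (hG.map _) hirr w d
    (by rw [hG.natDegree_map]; exact hGD)
    (by rw [hG.natDegree_map]; exact hGw'.map _) (algebraMap L Ω θ) y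
    (by rw [hGθ']; exact hy) (by rw [hGθ']; exact hder) I J _ (by omega) hdvd'
  apply hC0
  ext x
  rw [hCC']
  have h1 := congrFun hzero x
  simp only [Pi.zero_apply, map_eq_zero] at h1
  rw [h1, zero_pow (by positivity)]
  rfl

end Pool.Agent.MooreExp
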