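import Mathlib
import Pool.Agent.MooreExp.Stepanov4

set_option autoImplicit false

open Polynomial

namespace Pool.Agent.MooreExp

lemma isUnit_bivar {W : Type*} [Field W] {u : W[X][X]} (hu : IsUnit u) : ∃ a : W, a ≠ 0 ∧ u = C (C a) := by
  obtain ⟨r, hr, rfl⟩ := Polynomial.isUnit_iff.1 hu
  obtain ⟨a, ha, rfl⟩ := Polynomial.isUnit_iff.1 hr
  exact ⟨a, ha.ne_zero, rfl⟩

lemma exists_irred_factor {W : Type*} [Field W] (F : W[X][X]) (hF : F ≠ 0) (θ : W)
    (h0 : F.leadingCoeff.eval θ = 0) :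
    ∃ G H : W[X][X], F = G * H ∧ Irreducible G ∧ G.leadingCoeff.eval θ = 0 ∧
      G.leadingCoeff.leadingCoeff = 1 := by
  obtain ⟨f, hf, hfF⟩ := WfDvdMonoid.exists_factors F hF
  obtain ⟨u, hu⟩ := hfF
  obtain ⟨a, ha, hua⟩ := isUnit_bivar u.isUnit
  have h1 : (f.prod.leadingCoeff).eval θ = 0 := by
    rw [← hu, leadingCoeff_mul, eval_mul, hua, leadingCoeff_C, eval_C] at h0
    exact (mul_eq_zero.1 h0).resolve_right ha
  rw [leadingCoeff_multiset_prod, ← coe_evalRingHom, map_multiset_prod, Multiset.prod_eq_zero_iff,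
    Multiset.mem_map] at h1
  obtain ⟨c, hc, hc0⟩ := h1
  rw [Multiset.mem_map] at hc
  obtain ⟨G, hGf, rfl⟩ := hc
  have hG := hf G hGf
  have hGF : G ∣ F := by
    rw [← hu]
    exact (Multiset.dvd_prod hGf).mul_right _
  obtain ⟨H, hH⟩ := hGF
  set b := G.leadingCoeff.leadingCoeff with hb
  have hb0 : b ≠ 0 := by
    rw [hb]; exact leadingCoeff_ne_zero.2 (leadingCoeff_ne_zero.2 hG.ne_zero)
  have hunit : IsUnit (C (C b⁻¹) : W[X][X]) := by
    rw [Polynomial.isUnit_C, Polynomial.isUnit_C]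
    exact (inv_ne_zero hb0).isUnit
  refine ⟨C (C b⁻¹) * G, C (C b) * H, ?_, ?_, ?_, ?_⟩
  · rw [hH]
    have : (C (C b⁻¹) : W[X][X]) * C (C b) = 1 := by
      rw [← C_mul, ← C_mul, inv_mul_cancel₀ hb0, C_1, C_1]
    linear_combination (-(G * H)) * this
  · exact (irreducible_isUnit_mul hunit).2 hG
  · rw [leadingCoeff_mul, leadingCoeff_C, eval_mul]
    rw [coe_evalRingHom] at hc0
    rw [hc0, mul_zero]
  · rw [leadingCoeff_mul, leadingCoeff_C, leadingCoeff_mul, leadingCoeff_C, ← hb,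
      inv_mul_cancel₀ hb0]

lemma exists_biv_equiv {W : Type*} [Field W] (φ : W ≃+* W) :
    ∃ Φ : W[X][X] ≃+* W[X][X],
      (∀ (P : W[X][X]) (i j : ℕ), ((Φ P).coeff i).coeff j = φ ((P.coeff i).coeff j)) ∧
      (∀ P : W[X][X], (Φ P).natDegree = P.natDegree) ∧ Φ X = X ∧
      (∀ P : W[X][X], (Φ P).leadingCoeff.leadingCoeff = φ P.leadingCoeff.leadingCoeff) := by
  refine ⟨mapEquiv (mapEquiv φ), ?_, ?_, ?_, ?_⟩
  · intro P i j
    simp [mapEquiv_apply, coeff_map]
  · intro P
    exact natDegree_map_eq_of_injective (mapEquiv φ).injective P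
  · simp [mapEquiv_apply]
  · intro P
    have e1 : ((mapEquiv (mapEquiv φ)) P).leadingCoeff = mapEquiv φ P.leadingCoeff := by
      exact leadingCoeff_map_of_injective
        (f := ((mapEquiv φ : W[X] ≃+* W[X]) : W[X] →+* W[X])) (mapEquiv φ).injective P
    have e2 : (mapEquiv φ P.leadingCoeff).leadingCoeff = φ P.leadingCoeff.leadingCoeff := by
      rw [mapEquiv_apply]
      rw [leadingCoeff_map_of_injective φ.injective]
      rfl
    rw [e1, e2]

theorem exists_factor {L W : Type*} [Field L] [Finite L] [Field W] [Algebra L W]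
    [Algebra.IsAlgebraic L W] (F : L[X][X]) (M' : ℕ) (h2 : 2 * M' ≤ F.natDegree) (θ : W)
    (hA0 : (F.leadingCoeff.map (algebraMap L W)).eval θ = 0)
    (hA1 : (derivative (F.leadingCoeff.map (algebraMap L W))).eval θ ≠ 0)
    (hne : (F.map (mapRingHom (algebraMap L W))).map (evalRingHom θ) ≠ 0)
    (hdeg : ((F.map (mapRingHom (algebraMap L W))).map (evalRingHom θ)).natDegree ≤ M')
    (hY : X ∣ F) :
    ∃ G H : L[X][X], F = G * H ∧ Irreducible (G.map (mapRingHom (algebraMap L W))) ∧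
      H.natDegree ≤ M' ∧ ∀ u : L[X], (X - C u) ∣ F → (X - C u) ∣ H := by
  classical
  have : Fintype L := Fintype.ofFinite L
  set ψ : L[X] →+* W[X] := mapRingHom (algebraMap L W) with hψ
  have hψinj : Function.Injective ψ := map_injective _ (algebraMap L W).injective
  set Fw := F.map ψ with hFw
  have hF0 : Fw ≠ 0 := by
    intro h; rw [h, Polynomial.map_zero] at hne; exact hne rfl
  have hlc : Fw.leadingCoeff = F.leadingCoeff.map (algebraMap L W) := by
    rw [hFw, leadingCoeff_map_of_injective hψinj]; rfl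
  obtain ⟨G1, H1, hGH, hG1, hG1θ, hG1lc⟩ := exists_irred_factor Fw hF0 θ (by rw [hlc, hA0])
  have hH10 : H1 ≠ 0 := by rintro rfl; rw [mul_zero] at hGH; exact hF0 hGH
  have hH1θ : H1.leadingCoeff.eval θ ≠ 0 := by
    intro h
    apply hA1
    rw [← hlc, hGH, leadingCoeff_mul, derivative_mul, eval_add, eval_mul, eval_mul, h, hG1θ]
    ring
  have hH1deg : H1.natDegree ≤ M' := by
    have e1 : (H1.map (evalRingHom θ)).natDegree = H1.natDegree :=
      natDegree_map_of_leadingCoeff_ne_zero _ hH1θ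
    rw [← e1]
    refine le_trans ?_ hdeg
    rw [hGH, Polynomial.map_mul] at hne ⊢
    exact natDegree_le_of_dvd (dvd_mul_left _ _) hne
  have hdegsum : F.natDegree = G1.natDegree + H1.natDegree := by
    rw [← natDegree_map_eq_of_injective hψinj F, ← hFw, hGH, natDegree_mul hG1.ne_zero hH10]
  -- no monic linear factor in G1
  have hnolin : ∀ u : W[X], ¬ (X - C u) ∣ G1 := by
    rintro u ⟨v, hv⟩
    have hXu : ¬ IsUnit (X - C u : W[X][X]) := not_isUnit_X_sub_C u
    have hvu : IsUnit v := (hG1.isUnit_or_isUnit hv).resolve_left hXu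
    obtain ⟨a, ha, rfl⟩ := isUnit_bivar hvu
    rw [hv, leadingCoeff_mul, leadingCoeff_X_sub_C, one_mul, leadingCoeff_C, eval_C] at hG1θ
    exact ha hG1θ
  have hlinH : ∀ u : W[X], (X - C u) ∣ Fw → (X - C u) ∣ H1 := by
    intro u hu
    rw [hGH] at hu
    exact ((prime_X_sub_C u).dvd_or_dvd hu).resolve_left (hnolin u)
  -- Frobenius
  let φ : W ≃+* W := (FiniteField.frobeniusAlgEquivOfAlgebraic L W).toRingEquiv
  have hφ : ∀ x, φ x = x ^ Fintype.card L := fun x => rfl
  have hφL : ∀ x : L, φ (algebraMap L W x) = algebraMap L W x := by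
    intro x; rw [hφ, ← map_pow, FiniteField.pow_card]
  obtain ⟨Φ, hΦcoeff, hΦnat, hΦX, hΦlc⟩ := exists_biv_equiv φ
  have hΦF : Φ Fw = Fw := by
    ext i j
    rw [hΦcoeff, hFw, coeff_map, hψ, coe_mapRingHom, coeff_map, hφL]
  have hΦG : Irreducible (Φ G1) := (MulEquiv.irreducible_iff Φ).2 hG1
  have hΦGeq : Φ G1 = G1 := by
    have hd : Φ G1 ∣ G1 * H1 := by
      have h7 : G1 ∣ Fw := Dvd.intro H1 hGH.symm
      have h8 : Φ G1 ∣ Φ Fw := _root_.map_dvd Φ h7
      rw [hΦF] at h8
      exact hGH ▸ h8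
    rcases hΦG.prime.dvd_or_dvd hd with h | h
    · -- associated
      obtain ⟨v, hv⟩ := h
      have hvu : IsUnit v := (hG1.isUnit_or_isUnit hv).resolve_left hΦG.not_isUnit
      obtain ⟨a, ha, rfl⟩ := isUnit_bivar hvu
      have h3 : (Φ G1).leadingCoeff.leadingCoeff = 1 := by
        rw [hΦlc, hG1lc, map_one]
      have h4 : a = 1 := by
        have := congrArg (fun P : W[X][X] => P.leadingCoeff.leadingCoeff) hv
        simp only [leadingCoeff_mul, leadingCoeff_C, hG1lc, h3, one_mul] at this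
        exact this.symm
      rw [h4, C_1, C_1, mul_one] at hv
      exact hv.symm
    · exfalso
      obtain ⟨K, hK⟩ := h
      have hK0 : K ≠ 0 := by rintro rfl; rw [mul_zero] at hK; exact hH10 hK
      have hXF : (X : W[X][X]) ∣ Fw := by
        have := Polynomial.map_dvd ψ hY
        rwa [map_X] at this
      have hX0 : (X : W[X][X]) = X - C 0 := by simp
      have hXH : (X : W[X][X]) ∣ H1 := by
        rw [hX0] at hXF ⊢
        exact hlinH 0 hXF
      have hXK : (X : W[X][X]) ∣ K := by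
        rw [hK] at hXH
        rcases prime_X.dvd_or_dvd hXH with h | h
        · exfalso
          have : (X : W[X][X]) ∣ G1 := by
            have h5 := _root_.map_dvd Φ.symm h
            rwa [RingEquiv.symm_apply_apply, ← hΦX, RingEquiv.symm_apply_apply] at h5
          rw [hX0] at this
          exact hnolin 0 this
        · exact h
      have hKdeg : 1 ≤ K.natDegree := by
        have := natDegree_le_of_dvd hXK hK0
        rwa [natDegree_X] at this
      have h6 : H1.natDegree = (Φ G1).natDegree + K.natDegree := by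
        rw [hK, natDegree_mul hΦG.ne_zero hK0]
      rw [hΦnat] at h6
      omega
  have hΦHeq : Φ H1 = H1 := by
    have h1 : G1 * Φ H1 = G1 * H1 := by
      conv_lhs => rw [← hΦGeq]
      rw [← map_mul, ← hGH, hΦF]
    exact mul_left_cancel₀ hG1.ne_zero h1
  have hlift : ∀ P : W[X][X], Φ P = P → ∃ P' : L[X][X], P'.map ψ = P := by
    intro P hP
    have h1 : P ∈ lifts ψ := by
      rw [lifts_iff_coeff_lifts]
      intro i
      have h2 : P.coeff i ∈ lifts (algebraMap L W) := by
        rw [lifts_iff_coeff_lifts]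
        intro j
        have h3 : φ ((P.coeff i).coeff j) = (P.coeff i).coeff j := by
          rw [← hΦcoeff, hP]
        rw [hφ, ← Nat.card_eq_fintype_card] at h3
        obtain ⟨x, hx⟩ := mem_range_of_pow_card _ h3
        exact ⟨x, hx⟩
      exact (mem_lifts _).1 h2
    exact (mem_lifts _).1 h1
  obtain ⟨G, hG⟩ := hlift G1 hΦGeq
  obtain ⟨H, hH⟩ := hlift H1 hΦHeq
  refine ⟨G, H, ?_, ?_, ?_, ?_⟩
  · apply map_injective ψ hψinj
    rw [Polynomial.map_mul, hG, hH, ← hGH]
  · rw [hG]; exact hG1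
  · rw [← natDegree_map_eq_of_injective hψinj H, hH]; exact hH1deg
  · intro u hu
    have h1 : (X - C (ψ u)) ∣ H1 := by
      apply hlinH
      have := Polynomial.map_dvd ψ hu
      rwa [Polynomial.map_sub, map_X, map_C] at this
    rw [dvd_iff_isRoot, IsRoot.def] at h1 ⊢
    rw [← hH, eval_map_apply] at h1
    exact hψinj (by rw [h1, map_zero])

end Pool.Agent.MooreExp
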