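import Mathlib
import Pool.Agent.MooreExp.Factor

set_option autoImplicit false

open Polynomial

namespace Pool.Agent.MooreExp

lemma irreducible_scaleRoots {E : Type*} [Field E] (P : E[X]) (hP : Irreducible P) (r : E)
    (hr : r ≠ 0) : Irreducible (P.scaleRoots r) := by
  have hinv : ∀ Q : E[X], (Q.scaleRoots r).scaleRoots r⁻¹ = Q := by
    intro Q
    rw [← scaleRoots_mul, mul_inv_cancel₀ hr, scaleRoots_one]
  have hdeg : ∀ (Q : E[X]) (s : E), IsUnit (Q.scaleRoots s) → IsUnit Q := by
    intro Q s h
    rw [Polynomial.isUnit_iff_degree_eq_zero] at h ⊢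
    rwa [degree_scaleRoots] at h
  constructor
  · intro h
    exact hP.not_isUnit (hdeg _ _ h)
  · intro a b hab
    have h1 : P = a.scaleRoots r⁻¹ * b.scaleRoots r⁻¹ := by
      rw [← mul_scaleRoots_of_noZeroDivisors, ← hab, hinv]
    rcases hP.isUnit_or_isUnit h1 with h | h
    · left; exact hdeg _ _ h
    · right; exact hdeg _ _ h

lemma irreducible_integralNormalization {W : Type*} [Field W] (G : W[X][X]) (hG : Irreducible G)
    (hdeg : 1 ≤ G.natDegree) : Irreducible G.integralNormalization := by
  have hprim : G.IsPrimitive := hG.isPrimitive (by omega)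
  have hG0 : G ≠ 0 := hG.ne_zero
  have h1 : Irreducible (G.map (algebraMap W[X] (FractionRing W[X]))) :=
    (hprim.irreducible_iff_irreducible_map_fraction_map (K := FractionRing W[X])).1 hG
  have hmon : G.integralNormalization.Monic := monic_integralNormalization hG0
  rw [hmon.irreducible_iff_irreducible_map_fraction_map (K := FractionRing W[X])]
  have hinj : Function.Injective (algebraMap W[X] (FractionRing W[X])) :=
    IsFractionRing.injective _ _
  have hlc : algebraMap W[X] (FractionRing W[X]) G.leadingCoeff ≠ 0 := by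
    rw [Ne, map_eq_zero_iff _ hinj]
    exact leadingCoeff_ne_zero.2 hG0
  rw [← integralNormalization_map _ _ hlc]
  set P := G.map (algebraMap W[X] (FractionRing W[X])) with hP
  have hP0 : P.leadingCoeff ≠ 0 := leadingCoeff_ne_zero.2 h1.ne_zero
  have h2 := integralNormalization_mul_C_leadingCoeff P
  have h3 := irreducible_scaleRoots P h1 P.leadingCoeff hP0
  rw [← h2] at h3
  exact (irreducible_mul_isUnit (by rw [Polynomial.isUnit_C]; exact hP0.isUnit)).1 h3

lemma wt_integralNormalization {R : Type*} [CommRing R] [IsDomain R] (G : R[X][X]) (w : ℕ)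
    (hG : G ≠ 0)
    (hw : ∀ b, (G.coeff b).natDegree ≤ w) (hdeg : 1 ≤ G.natDegree) :
    Wt w (w * G.natDegree) G.integralNormalization := by
  intro b hb
  have hb' : b ≤ G.natDegree := by
    by_contra h
    apply hb
    apply coeff_eq_zero_of_natDegree_lt
    rw [natDegree_integralNormalization]; omega
  rcases Nat.lt_or_ge b G.natDegree with h | h
  · rw [integralNormalization_coeff_ne_natDegree (by omega)]
    have h1 : (G.coeff b * G.leadingCoeff ^ (G.natDegree - 1 - b)).natDegree ≤
        w + (G.natDegree - 1 - b) * w := by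
      refine natDegree_mul_le.trans ?_
      have h2 : (G.leadingCoeff ^ (G.natDegree - 1 - b)).natDegree ≤
          (G.natDegree - 1 - b) * w := by
        refine natDegree_pow_le.trans ?_
        exact Nat.mul_le_mul_left _ (hw _)
      have h3 := hw b
      omega
    obtain ⟨c, hc⟩ : ∃ c, G.natDegree = b + 1 + c := ⟨G.natDegree - 1 - b, by omega⟩
    have h4 : G.natDegree - 1 - b = c := by omega
    rw [h4] at h1 ⊢
    rw [hc]
    nlinarith
  · have h1 : b = G.natDegree := by omega
    subst h1
    rw [integralNormalization_coeff_natDegree hG]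
    simp

lemma swap_coeff {R : Type*} [CommRing R] (P : R[X][X]) (a b : ℕ) :
    ((Bivariate.swap P).coeff a).coeff b = (P.coeff b).coeff a := by
  induction P using Polynomial.induction_on' with
  | add p q hp hq => rw [map_add, coeff_add, coeff_add, coeff_add, coeff_add, hp, hq]
  | monomial n c =>
    induction c using Polynomial.induction_on' with
    | add p q hp hq =>
      rw [map_add, map_add, coeff_add, coeff_add, coeff_add, coeff_add, hp, hq]
    | monomial m r =>
      rw [Bivariate.swap_monomial_monomial]
      simp only [coeff_monomial]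
      split_ifs <;> simp_all [coeff_monomial]

lemma natDegree_coeff_le_of_mul {R : Type*} [CommRing R] [IsDomain R] (F G H : R[X][X])
    (hF : F = G * H) (hF0 : F ≠ 0) (N : ℕ) (hN : ∀ b, (F.coeff b).natDegree ≤ N) (b : ℕ) :
    (G.coeff b).natDegree ≤ N := by
  have h1 : (Bivariate.swap F).natDegree ≤ N := by
    rw [natDegree_le_iff_coeff_eq_zero]
    intro a ha
    ext b
    rw [swap_coeff, coeff_zero]
    exact coeff_eq_zero_of_natDegree_lt (lt_of_le_of_lt (hN b) ha)
  have hG0 : G ≠ 0 := by rintro rfl; rw [zero_mul] at hF; exact hF0 hF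
  have hH0 : H ≠ 0 := by rintro rfl; rw [mul_zero] at hF; exact hF0 hF
  have h2 : (Bivariate.swap G).natDegree ≤ N := by
    refine le_trans ?_ h1
    rw [hF, map_mul, natDegree_mul]
    · omega
    · rw [Ne, EmbeddingLike.map_eq_zero_iff]; exact hG0
    · rw [Ne, EmbeddingLike.map_eq_zero_iff]; exact hH0
  rw [natDegree_le_iff_coeff_eq_zero]
  intro a ha
  rw [← swap_coeff, coeff_eq_zero_of_natDegree_lt (lt_of_le_of_lt h2 ha), coeff_zero]

end Pool.Agent.MooreExp
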