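import Mathlib
import Pool.Agent.MooreExp.Norm

set_option autoImplicit false

open Polynomial

namespace Pool.Agent.MooreExp

/-- sparse polynomial `∑ a_l X^{e_l}` -/
noncomputable def sp {R : Type*} [CommRing R] {k : ℕ} (e : Fin k → ℕ) (a : Fin k → R) : R[X] :=
  ∑ l, C (a l) * X ^ (e l)

lemma sp_coeff {R : Type*} [CommRing R] {k : ℕ} (e : Fin k → ℕ) (he : Function.Injective e)
    (a : Fin k → R) (i : Fin k) : (sp e a).coeff (e i) = a i := by
  rw [sp, finsetSum_coeff, Finset.sum_eq_single i]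
  · simp
  · intro j _ hj
    rw [coeff_C_mul, coeff_X_pow, if_neg (fun h => hj (he h).symm), mul_zero]
  · simp

lemma sp_coeff_ne {R : Type*} [CommRing R] {k : ℕ} (e : Fin k → ℕ) (a : Fin k → R) (n : ℕ)
    (hn : ∀ l, e l ≠ n) : (sp e a).coeff n = 0 := by
  rw [sp, finsetSum_coeff]
  apply Finset.sum_eq_zero
  intro j _
  rw [coeff_C_mul, coeff_X_pow, if_neg (fun h => hn j h.symm), mul_zero]

lemma sp_coeff_ne' {R : Type*} [CommRing R] {k : ℕ} (e : Fin k → ℕ) (a : Fin k → R) (n : ℕ)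
    (hn : ∀ l, a l ≠ 0 → e l ≠ n) : (sp e a).coeff n = 0 := by
  rw [sp, finsetSum_coeff]
  apply Finset.sum_eq_zero
  intro j _
  by_cases h : a j = 0
  · rw [h, C_0, zero_mul, coeff_zero]
  · rw [coeff_C_mul, coeff_X_pow, if_neg (fun h' => hn j h h'.symm), mul_zero]

lemma sp_eval {R : Type*} [CommRing R] {k : ℕ} (e : Fin k → ℕ) (a : Fin k → R) (x : R) :
    (sp e a).eval x = ∑ l, a l * x ^ (e l) := by
  simp [sp, eval_finsetSum]

lemma sp_map {R S : Type*} [CommRing R] [CommRing S] (f : R →+* S) {k : ℕ} (e : Fin k → ℕ)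
    (a : Fin k → R) : (sp e a).map f = sp e (fun i => f (a i)) := by
  simp [sp, Polynomial.map_sum]

lemma sp_natDegree_le {R : Type*} [CommRing R] {k : ℕ} (e : Fin k → ℕ) (a : Fin k → R) (N : ℕ)
    (h : ∀ l, a l ≠ 0 → e l ≤ N) : (sp e a).natDegree ≤ N := by
  rw [natDegree_le_iff_coeff_eq_zero]
  intro n hn
  apply sp_coeff_ne'
  intro l hl
  have := h l hl
  omega

lemma sp_natDegree {R : Type*} [CommRing R] {k : ℕ} (e : Fin k → ℕ) (he : Function.Injective e)
    (a : Fin k → R) (i : Fin k) (hi : a i ≠ 0) (h : ∀ l, a l ≠ 0 → e l ≤ e i) :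
    (sp e a).natDegree = e i := by
  apply le_antisymm (sp_natDegree_le e a _ h)
  apply le_natDegree_of_ne_zero
  rw [sp_coeff e he]; exact hi

/-- in characteristic `p`, if all exponents but the one at `i0` are divisible by `p` and the one at
`i0` is `1`, the derivative is constant -/
lemma sp_derivative {R : Type*} [CommRing R] (p : ℕ) [CharP R p] {k : ℕ} (e : Fin k → ℕ)
    (a : Fin k → R) (i0 : Fin k) (h0 : e i0 = 1) (h : ∀ l, l ≠ i0 → p ∣ e l) :
    derivative (sp e a) = C (a i0) := by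
  rw [sp, derivative_sum, Finset.sum_eq_single i0]
  · rw [h0]; simp
  · intro l _ hl
    rw [derivative_C_mul, derivative_X_pow, (CharP.cast_eq_zero_iff R p _).2 (h l hl)]
    simp
  · simp

end Pool.Agent.MooreExp
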