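import Mathlib
import Pool.Agent.MooreExp.Family

set_option autoImplicit false

open Polynomial

namespace Pool.Agent.MooreExp

/-- The additive polynomials `c_i`, `c_i(θ) = ∑_l λ_i λ_l (z_i - z_l) θ^{q^{t_l}}`. -/
noncomputable def cpoly {L : Type*} [CommRing L] {k : ℕ} (q : ℕ) (t : Fin k → ℕ) (lam z : Fin k → L)
    (i : Fin k) : L[X] :=
  sp (fun l => q ^ t l) (fun l => lam i * lam l * (z i - z l))

/-- The bivariate polynomial `F(θ, y) = ∑_i c_i(θ) y^{q^{t_i}}`. -/
noncomputable def Fpoly {L : Type*} [CommRing L] {k : ℕ} (q : ℕ) (t : Fin k → ℕ)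
    (lam z : Fin k → L) : L[X][X] :=
  sp (fun i => q ^ t i) (fun i => cpoly q t lam z i)

lemma pow_injective_of_strictMono {k : ℕ} {q : ℕ} (hq : 2 ≤ q) {t : Fin k → ℕ} (ht : StrictMono t) :
    Function.Injective (fun l => q ^ t l) := by
  intro a b hab
  exact ht.injective (Nat.pow_right_injective hq hab)

/-- key arithmetic input: some root of `c_last` is not a root of `c_0`, unless `t` is an
arithmetic progression. -/
lemma exists_theta {W : Type*} [Field W] [IsAlgClosed W] (p : ℕ) [Fact p.Prime] [CharP W p]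
    (e : ℕ) (he : 0 < e) (r : ℕ) (t : Fin (r + 3) → ℕ) (ht : StrictMono t) (ht0 : t 0 = 0)
    (hgap : t (Fin.last (r + 2)) ≤ t (Fin.last (r + 1)).castSucc + t 1)
    (hap : ∃ i, t i ≠ i * t 1)
    (lam z : Fin (r + 3) → W) (hlam : ∀ i, lam i ≠ 0) (hz : Function.Injective z) :
    ∃ θ : W, (cpoly (p ^ e) t lam z (Fin.last (r + 2))).eval θ = 0 ∧
      (cpoly (p ^ e) t lam z 0).eval θ ≠ 0 := by
  classical
  by_contra hcon
  push Not at hcon
  set q := p ^ e with hq
  have hp2 : 2 ≤ p := (Fact.out (p := p.Prime)).two_le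
  have hq2 : 2 ≤ q := by
    calc 2 ≤ p := hp2
      _ = p ^ 1 := (pow_one p).symm
      _ ≤ p ^ e := Nat.pow_le_pow_right (by omega) he
  have hpq : p ∣ q := dvd_pow_self p (by omega)
  have hExp : ExpChar W p := ExpChar.prime Fact.out
  have ht01 : ∀ l : Fin (r + 2), t 1 ≤ t l.succ := by
    intro l
    apply ht.monotone
    rw [Fin.le_def, Fin.val_succ]
    simp
  -- A
  set a' : Fin (r + 2) → W := fun l => lam (Fin.last (r + 2)) * lam l.castSucc *
    (z (Fin.last (r + 2)) - z l.castSucc) with ha'
  have ha'0 : ∀ l, a' l ≠ 0 := by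
    intro l
    refine mul_ne_zero (mul_ne_zero (hlam _) (hlam _)) ?_
    rw [sub_ne_zero]
    intro h
    exact (Fin.castSucc_lt_last l).ne' (hz h)
  set A : W[X] := sp (fun l : Fin (r + 2) => q ^ t l.castSucc) a' with hA
  have hAeq : cpoly q t lam z (Fin.last (r + 2)) = A := by
    rw [cpoly, sp, Fin.sum_univ_castSucc, sub_self, mul_zero, C_0, zero_mul, add_zero]
    rfl
  have hinjA : Function.Injective (fun l : Fin (r + 2) => q ^ t l.castSucc) := by
    intro x y hxy
    exact Fin.castSucc_injective _ (pow_injective_of_strictMono hq2 ht hxy)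
  have hAdeg : A.natDegree = q ^ t (Fin.last (r + 1)).castSucc := by
    apply sp_natDegree _ hinjA a' _ (ha'0 _)
    intro l _
    apply Nat.pow_le_pow_right (by omega)
    apply ht.monotone
    simp [Fin.le_last]
  have hAder : derivative A = C (a' 0) := by
    apply sp_derivative p
    · simp [ht0]
    · intro l hl
      have : t l.castSucc ≠ 0 := by
        rw [← ht0]
        intro h
        apply hl
        have := ht.injective h
        exact Fin.castSucc_injective _ this
      exact dvd_pow hpq this
  have hA0 : A ≠ 0 := by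
    intro h
    rw [h, derivative_zero] at hAder
    exact ha'0 0 (C_eq_zero.1 hAder.symm)
  have hAsep : A.Separable := by
    rw [Separable, hAder]
    exact isCoprime_one_right.of_isCoprime_of_dvd_right (by
      refine (Polynomial.isUnit_C.2 (ha'0 0).isUnit).dvd)
  -- c_0
  set s1 := t 1 with hs1
  have hv : ∀ l : Fin (r + 2), ∃ v : W, v ^ (q ^ s1) = lam 0 * lam l.succ * (z 0 - z l.succ) := by
    intro l
    exact IsAlgClosed.exists_pow_nat_eq _ (by positivity)
  choose v hv using hv
  have hv0 : ∀ l, v l ≠ 0 := by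
    intro l h
    have h1 := hv l
    rw [h, zero_pow (by positivity)] at h1
    refine mul_ne_zero (mul_ne_zero (hlam _) (hlam _)) ?_ h1.symm
    rw [sub_ne_zero]
    intro h
    exact (Fin.succ_ne_zero l).symm (hz h)
  set Cp : W[X] := sp (fun l : Fin (r + 2) => q ^ (t l.succ - s1)) v with hCp
  have hinjC : Function.Injective (fun l : Fin (r + 2) => q ^ (t l.succ - s1)) := by
    intro x y hxy
    have h1 := Nat.pow_right_injective hq2 hxy
    have h2 := ht01 x
    have h3 := ht01 y
    have h4 : t x.succ = t y.succ := by omega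
    exact Fin.succ_injective _ (ht.injective h4)
  have hCdeg : Cp.natDegree = q ^ (t (Fin.last (r + 1)).succ - s1) := by
    apply sp_natDegree _ hinjC v _ (hv0 _)
    intro l _
    apply Nat.pow_le_pow_right (by omega)
    apply Nat.sub_le_sub_right
    apply ht.monotone
    rw [Fin.succ_le_succ_iff]
    exact Fin.le_last l
  have hCp0 : Cp ≠ 0 := by
    intro h
    have h1 := sp_coeff _ hinjC v 0
    rw [← hCp, h, coeff_zero] at h1
    exact hv0 0 h1.symm
  have hCeval : ∀ x : W, (Cp.eval x) ^ (q ^ s1) = (cpoly q t lam z 0).eval x := by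
    intro x
    rw [hCp, sp_eval, cpoly, sp_eval]
    conv_rhs => rw [Fin.sum_univ_succ, sub_self, mul_zero, zero_mul, zero_add]
    rw [hq, ← pow_mul, sum_pow_char_pow]
    apply Finset.sum_congr rfl
    intro l _
    rw [mul_pow, pow_mul p e s1, ← hq, hv, ← pow_mul, ← pow_add, Nat.sub_add_cancel (ht01 l)]
  have hroots : ∀ x : W, A.eval x = 0 → Cp.eval x = 0 := by
    intro x hx
    have h1 := hcon x (by rw [hAeq]; exact hx)
    rw [← hCeval] at h1
    exact pow_eq_zero_iff (by positivity) |>.1 h1
  have hdvd : A ∣ Cp := by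
    rw [IsAlgClosed.dvd_iff_roots_le_roots hA0 hCp0, Multiset.le_iff_subset (nodup_roots hAsep)]
    intro x hx
    rw [mem_roots hA0] at hx
    rw [mem_roots hCp0]
    exact hroots x hx
  obtain ⟨u, hu⟩ := hdvd
  have hu0 : u ≠ 0 := by rintro rfl; rw [mul_zero] at hu; exact hCp0 hu
  have hle : Cp.natDegree ≤ A.natDegree := by
    rw [hCdeg, hAdeg]
    apply Nat.pow_le_pow_right (by omega)
    have : (Fin.last (r + 1)).succ = Fin.last (r + 2) := rfl
    rw [this]; omega
  have hudeg : u.natDegree = 0 := by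
    have := natDegree_mul hA0 hu0
    rw [← hu] at this
    omega
  rw [natDegree_eq_zero] at hudeg
  obtain ⟨κ, rfl⟩ := hudeg
  have hκ : κ ≠ 0 := by rintro rfl; simp at hu0
  have hrange : Set.range (fun l : Fin (r + 2) => t l.castSucc) =
      Set.range (fun l : Fin (r + 2) => t l.succ - s1) := by
    ext n
    constructor
    · rintro ⟨l, rfl⟩
      have h1 : Cp.coeff (q ^ t l.castSucc) ≠ 0 := by
        rw [hu, coeff_mul_C, hA, sp_coeff _ hinjA a' l]
        exact mul_ne_zero (ha'0 l) hκ
      by_contra h2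
      apply h1
      apply sp_coeff_ne
      intro l' hl'
      apply h2
      exact ⟨l', Nat.pow_right_injective hq2 hl'⟩
    · rintro ⟨l, rfl⟩
      have h1 : A.coeff (q ^ (t l.succ - s1)) ≠ 0 := by
        intro h
        have h3 := sp_coeff _ hinjC v l
        rw [← hCp, hu, coeff_mul_C, h, zero_mul] at h3
        exact hv0 l h3.symm
      by_contra h2
      apply h1
      apply sp_coeff_ne
      intro l' hl'
      apply h2
      exact ⟨l', Nat.pow_right_injective hq2 hl'⟩
  have hm1 : StrictMono (fun l : Fin (r + 2) => t l.castSucc) := by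
    intro x y hxy
    exact ht (by simpa using hxy)
  have hm2 : StrictMono (fun l : Fin (r + 2) => t l.succ - s1) := by
    intro x y hxy
    have h1 : t x.succ < t y.succ := ht (by simpa using hxy)
    have h2 := ht01 x
    change t x.succ - s1 < t y.succ - s1
    omega
  have heq := (hm1.range_inj hm2).1 hrange
  have hstep : ∀ l : Fin (r + 2), t l.succ = t l.castSucc + s1 := by
    intro l
    have h1 : t l.castSucc = t l.succ - s1 := congrFun heq l
    have h2 := ht01 l
    omega
  obtain ⟨i, hi⟩ := hap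
  apply hi
  have : ∀ n (hn : n < r + 3), t ⟨n, hn⟩ = n * s1 := by
    intro n
    induction n with
    | zero => intro hn; rw [zero_mul]; exact ht0
    | succ n ih =>
      intro hn
      have h1 := hstep ⟨n, by omega⟩
      have h2 := ih (by omega)
      have h3 : (⟨n, by omega⟩ : Fin (r + 2)).succ = ⟨n + 1, hn⟩ := rfl
      have h4 : (⟨n, by omega⟩ : Fin (r + 2)).castSucc = (⟨n, by omega⟩ : Fin (r + 3)) := rfl
      rw [h3, h4, h2] at h1
      rw [h1]; ring
  exact this i i.2

end Pool.Agent.MooreExp
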