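import Mathlib
import Pool.Agent.MooreExp.Theta

set_option autoImplicit false

open Polynomial

namespace Pool.Agent.MooreExp

lemma cpoly_map {L W : Type*} [CommRing L] [CommRing W] (f : L →+* W) {k : ℕ} (q : ℕ)
    (t : Fin k → ℕ) (lam z : Fin k → L) (i : Fin k) :
    (cpoly q t lam z i).map f = cpoly q t (fun i => f (lam i)) (fun i => f (z i)) i := by
  simp [cpoly, sp_map]

lemma cpoly_natDegree_le {L : Type*} [CommRing L] {k : ℕ} (q : ℕ) (hq : 2 ≤ q)
    (t : Fin k → ℕ) (lam z : Fin k → L) (i : Fin k) (m : ℕ) (hm : ∀ l, t l ≤ m) :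
    (cpoly q t lam z i).natDegree ≤ q ^ m := by
  apply sp_natDegree_le
  intro l _
  exact Nat.pow_le_pow_right (by omega) (hm l)

lemma separable_scaleRoots {L : Type*} [Field L] [Finite L] (P : L[X]) (hP : P.Separable) (r : L)
    (hr : r ≠ 0) : (P.scaleRoots r).Separable := by
  have hinv : ∀ Q : L[X], (Q.scaleRoots r).scaleRoots r⁻¹ = Q := by
    intro Q
    rw [← scaleRoots_mul, mul_inv_cancel₀ hr, scaleRoots_one]
  rw [PerfectField.separable_iff_squarefree] at hP ⊢
  intro a ha
  have h1 : a.scaleRoots r⁻¹ * a.scaleRoots r⁻¹ ∣ P := by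
    obtain ⟨b, hb⟩ := ha
    refine ⟨b.scaleRoots r⁻¹, ?_⟩
    rw [← mul_scaleRoots_of_noZeroDivisors, ← mul_scaleRoots_of_noZeroDivisors, ← hb, hinv]
  have h2 := hP _ h1
  rw [Polynomial.isUnit_iff_degree_eq_zero] at h2 ⊢
  rwa [degree_scaleRoots] at h2

theorem exists_point (p : ℕ) [Fact p.Prime] (e : ℕ) (he : 0 < e) (r : ℕ)
    (t : Fin (r + 3) → ℕ) (ht : StrictMono t) (ht0 : t 0 = 0)
    (hgap : t (Fin.last (r + 2)) ≤ t (Fin.last (r + 1)).castSucc + t 1)
    (hap : ∃ i, t i ≠ i * t 1) :
    ∃ N1 : ℕ, ∀ (L : Type) [Field L] [Finite L] [CharP L p], N1 ≤ Nat.card L →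
      ∀ (lam z : Fin (r + 3) → L), (∀ i, lam i ≠ 0) → Function.Injective z →
      ∃ θ y : L, (cpoly (p ^ e) t lam z (Fin.last (r + 2))).eval θ ≠ 0 ∧
        ((Fpoly (p ^ e) t lam z).map (evalRingHom θ)).eval y = 0 ∧
        ∀ u : L[X], (X - C u) ∣ Fpoly (p ^ e) t lam z → y ≠ u.eval θ := by
  classical
  set q := p ^ e with hq
  have hp2 : 2 ≤ p := (Fact.out (p := p.Prime)).two_le
  have hq2 : 2 ≤ q := by
    calc 2 ≤ p := hp2
      _ = p ^ 1 := (pow_one p).symm
      _ ≤ p ^ e := Nat.pow_le_pow_right (by omega) he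
  have hpq : p ∣ q := dvd_pow_self p (by omega)
  set m := t (Fin.last (r + 2)) with hm
  have htm : ∀ l, t l ≤ m := fun l => ht.monotone (Fin.le_last l)
  set w := q ^ m with hw
  have hst := fun D => stepanov p D w (w + w)
  choose N0 hN0 using hst
  refine ⟨(Finset.range (w + 1)).sup N0, ?_⟩
  intro L _ _ _ hcard lam z hlam hz
  have : Fintype L := Fintype.ofFinite L
  let W := AlgebraicClosure L
  have hWp : CharP W p := charP_of_injective_algebraMap (algebraMap L W).injective p
  set f := algebraMap L W with hf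
  set F := Fpoly q t lam z with hF
  set A := cpoly q t lam z (Fin.last (r + 2)) with hA
  set c0 := cpoly q t lam z 0 with hc0
  have hinj : Function.Injective (fun l => q ^ t l) := pow_injective_of_strictMono hq2 ht
  obtain ⟨θ1, hθ1, hθ1'⟩ := exists_theta (W := W) p e he r t ht ht0 hgap hap
    (fun i => f (lam i)) (fun i => f (z i))
    (fun i => (map_ne_zero f).2 (hlam i)) (f.injective.comp hz)
  rw [← cpoly_map, ← hA] at hθ1
  rw [← cpoly_map, ← hc0] at hθ1'
  -- derivative of A
  have hlast0 : Fin.last (r + 2) ≠ 0 := by simp [Fin.ext_iff]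
  have hexp : ∀ l : Fin (r + 3), l ≠ 0 → p ∣ q ^ t l := by
    intro l hl
    apply dvd_pow hpq
    rw [← ht0]
    exact fun h => hl (ht.injective h)
  have hAder : derivative A = C (lam (Fin.last (r + 2)) * lam 0 * (z (Fin.last (r + 2)) - z 0)) := by
    rw [hA, cpoly]
    rw [sp_derivative p _ _ 0 (by simp [ht0]) hexp]
  have hAc : lam (Fin.last (r + 2)) * lam 0 * (z (Fin.last (r + 2)) - z 0) ≠ 0 := by
    refine mul_ne_zero (mul_ne_zero (hlam _) (hlam _)) ?_
    rw [sub_ne_zero]
    exact fun h => hlast0 (hz h)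
  have hA0 : A ≠ 0 := by
    intro h
    rw [h, derivative_zero] at hAder
    exact hAc (C_eq_zero.1 hAder.symm)
  have hc00 : c0 ≠ 0 := by
    rintro h
    rw [h, Polynomial.map_zero, eval_zero] at hθ1'
    exact hθ1' rfl
  -- degree and leading coefficient of F
  have hFdeg : F.natDegree = w := by
    rw [hF, Fpoly, hw, hm]
    apply sp_natDegree _ hinj _ _ hA0
    intro l _
    exact Nat.pow_le_pow_right (by omega) (htm l)
  have hFlc : F.leadingCoeff = A := by
    rw [leadingCoeff, hFdeg, hF, Fpoly, hw, hm, sp_coeff _ hinj]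
  have hF0 : F ≠ 0 := by
    rw [← leadingCoeff_ne_zero, hFlc]; exact hA0
  set M' := q ^ t (Fin.last (r + 1)).castSucc with hM'
  have h2M : 2 * M' ≤ F.natDegree := by
    rw [hFdeg, hw, hM']
    have h1 : t (Fin.last (r + 1)).castSucc + 1 ≤ m := ht (Fin.castSucc_lt_last _)
    calc 2 * q ^ t (Fin.last (r + 1)).castSucc ≤ q * q ^ t (Fin.last (r + 1)).castSucc :=
          Nat.mul_le_mul_right _ hq2
      _ = q ^ (t (Fin.last (r + 1)).castSucc + 1) := by rw [pow_succ]; ring
      _ ≤ q ^ m := Nat.pow_le_pow_right (by omega) h1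
  have hM'1 : 1 ≤ M' := Nat.one_le_pow _ _ (by omega)
  -- specialisations
  have hspec : ∀ θ : W, (F.map (mapRingHom f)).map (evalRingHom θ) =
      sp (fun l => q ^ t l) (fun i => ((cpoly q t lam z i).map f).eval θ) := by
    intro θ
    rw [hF, Fpoly, sp_map, sp_map]
    rfl
  have hne : (F.map (mapRingHom f)).map (evalRingHom θ1) ≠ 0 := by
    rw [hspec]
    intro h
    have h1 := sp_coeff _ hinj (fun i => ((cpoly q t lam z i).map f).eval θ1) 0
    rw [h, coeff_zero] at h1
    exact hθ1' h1.symm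
  have hdegθ : ((F.map (mapRingHom f)).map (evalRingHom θ1)).natDegree ≤ M' := by
    rw [hspec]
    apply sp_natDegree_le
    intro l hl
    apply Nat.pow_le_pow_right (by omega)
    apply ht.monotone
    by_contra h
    apply hl
    have h3 : l = Fin.last (r + 2) := by
      rw [not_le, Fin.castSucc_lt_iff_succ_le] at h
      have : (Fin.last (r + 1)).succ = Fin.last (r + 2) := rfl
      rw [this] at h
      exact le_antisymm (Fin.le_last l) h
    rw [h3]
    exact hθ1
  have hXF : (X : L[X][X]) ∣ F := by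
    rw [X_dvd_iff, hF, Fpoly]
    apply sp_coeff_ne
    intro l
    positivity
  obtain ⟨G, H, hGH, hGirr, hHdeg, hlin⟩ := exists_factor (W := W) F M' h2M θ1
    (by rw [hFlc]; exact hθ1)
    (by rw [hFlc, derivative_map, hAder, map_C, eval_C]; exact (map_ne_zero f).2 hAc)
    hne hdegθ hXF
  have hG0 : G ≠ 0 := by rintro rfl; rw [zero_mul] at hGH; exact hF0 hGH
  have hH0 : H ≠ 0 := by rintro rfl; rw [mul_zero] at hGH; exact hF0 hGH
  have hdegsum : F.natDegree = G.natDegree + H.natDegree := by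
    rw [hGH, natDegree_mul hG0 hH0]
  have hGdeg1 : 1 ≤ G.natDegree := by omega
  have hGdegw : G.natDegree ≤ w := by omega
  -- the normalised polynomial
  set G' := G.integralNormalization with hG'
  have hG'mon : G'.Monic := monic_integralNormalization hG0
  have hG'deg : G'.natDegree = G.natDegree := natDegree_integralNormalization
  have hcoeffF : ∀ b, (F.coeff b).natDegree ≤ w := by
    intro b
    by_cases h : ∃ l, q ^ t l = b
    · obtain ⟨l, rfl⟩ := h
      rw [hF, Fpoly, sp_coeff _ hinj]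
      exact cpoly_natDegree_le q hq2 t lam z l m htm
    · push Not at h
      rw [hF, Fpoly, sp_coeff_ne _ _ _ h]; simp
  have hG'w : Wt w (w * G.natDegree) G' :=
    wt_integralNormalization G w hG0 (natDegree_coeff_le_of_mul F G H hGH hF0 w hcoeffF) hGdeg1
  have hψinj : Function.Injective (mapRingHom f) := map_injective _ f.injective
  have hG'irr : Irreducible (G'.map (mapRingHom f)) := by
    rw [hG', ← integralNormalization_map]
    · apply irreducible_integralNormalization _ hGirr
      rw [natDegree_map_eq_of_injective hψinj]; exact hGdeg1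
    · rw [Ne, map_eq_zero_iff _ hψinj]
      exact leadingCoeff_ne_zero.2 hG0
  -- the good parameters
  set Θ : Finset L := Finset.univ.filter (fun θ => A.eval θ ≠ 0 ∧ c0.eval θ ≠ 0) with hΘ
  have hΘcard : Nat.card L ≤ Θ.card + (w + w) := by
    have h1 : (Finset.univ : Finset L) ⊆ Θ ∪ (A.roots.toFinset ∪ c0.roots.toFinset) := by
      intro θ _
      rw [Finset.mem_union, Finset.mem_union, Multiset.mem_toFinset, Multiset.mem_toFinset,
        mem_roots hA0, mem_roots hc00, hΘ, Finset.mem_filter, IsRoot.def, IsRoot.def]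
      by_cases h2 : A.eval θ = 0
      · right; left; exact h2
      · by_cases h3 : c0.eval θ = 0
        · right; right; exact h3
        · left; exact ⟨Finset.mem_univ _, h2, h3⟩
    have h2 := Finset.card_le_card h1
    have h3 := Finset.card_union_le Θ (A.roots.toFinset ∪ c0.roots.toFinset)
    have h4 := Finset.card_union_le A.roots.toFinset c0.roots.toFinset
    have h5 := (Multiset.toFinset_card_le A.roots).trans (card_roots' A)
    have h6 := (Multiset.toFinset_card_le c0.roots).trans (card_roots' c0)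
    have h7 : A.natDegree ≤ w := cpoly_natDegree_le q hq2 t lam z _ m htm
    have h8 : c0.natDegree ≤ w := cpoly_natDegree_le q hq2 t lam z _ m htm
    rw [Nat.card_eq_fintype_card, ← Finset.card_univ]
    omega
  have hFθ : ∀ θ : L, F.map (evalRingHom θ) =
      sp (fun l => q ^ t l) (fun i => (cpoly q t lam z i).eval θ) := by
    intro θ
    rw [hF, Fpoly, sp_map]; rfl
  have hFsep : ∀ θ ∈ Θ, (F.map (evalRingHom θ)).Separable := by
    intro θ hθ
    rw [hΘ, Finset.mem_filter] at hθ
    rw [Separable, hFθ, sp_derivative p _ _ 0 (by simp [ht0]) hexp]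
    exact isCoprime_one_right.of_isCoprime_of_dvd_right
      ((Polynomial.isUnit_C.2 (isUnit_iff_ne_zero.2 hθ.2.2)).dvd)
  have hGlcθ : ∀ θ ∈ Θ, G.leadingCoeff.eval θ ≠ 0 := by
    intro θ hθ h
    rw [hΘ, Finset.mem_filter] at hθ
    apply hθ.2.1
    rw [← hFlc, hGH, leadingCoeff_mul, eval_mul, h, zero_mul]
  have hG'eval : ∀ θ y : L, (G'.map (evalRingHom θ)).eval (G.leadingCoeff.eval θ * y) =
      (G.leadingCoeff.eval θ) ^ (G.natDegree - 1) * (G.map (evalRingHom θ)).eval y := by
    intro θ y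
    rw [eval_map, eval_map]
    exact integralNormalization_eval₂_leadingCoeff_mul hGdeg1 (evalRingHom θ) y
  have hG'sep : ∀ θ ∈ Θ, (G'.map (evalRingHom θ)).Separable := by
    intro θ hθ
    have h1 : (G.map (evalRingHom θ)).Separable := by
      have := hFsep θ hθ
      rw [hGH, Polynomial.map_mul] at this
      exact this.of_mul_left
    have h2 : evalRingHom θ G.leadingCoeff ≠ 0 := hGlcθ θ hθ
    rw [hG', ← integralNormalization_map _ _ h2]
    set P := G.map (evalRingHom θ) with hP
    have hPlc : P.leadingCoeff ≠ 0 := by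
      rw [hP, leadingCoeff_map_of_leadingCoeff_ne_zero _ h2]; exact h2
    have h3 : (P.scaleRoots P.leadingCoeff).Separable := separable_scaleRoots P h1 _ hPlc
    rw [← integralNormalization_mul_C_leadingCoeff P] at h3
    exact h3.of_mul_left
  obtain ⟨θ, hθ, y', hy'⟩ := hN0 G.natDegree L W (by
      refine le_trans ?_ hcard
      exact Finset.le_sup (f := N0) (Finset.mem_range.2 (by omega))) G' hG'mon hG'deg hG'w hG'irr
      Θ hΘcard hG'sep
  set y := (G.leadingCoeff.eval θ)⁻¹ * y' with hy
  have hlcθ := hGlcθ θ hθ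
  have hyG : (G.map (evalRingHom θ)).eval y = 0 := by
    have h1 := hG'eval θ y
    rw [hy, mul_inv_cancel_left₀ hlcθ, hy'] at h1
    exact (mul_eq_zero.1 h1.symm).resolve_left (pow_ne_zero _ hlcθ)
  refine ⟨θ, y, ?_, ?_, ?_⟩
  · rw [hΘ, Finset.mem_filter] at hθ
    exact hθ.2.1
  · rw [hGH, Polynomial.map_mul, eval_mul, hyG, zero_mul]
  · intro u hu hyu
    obtain ⟨K, hK⟩ := hlin u hu
    have hHθ : (H.map (evalRingHom θ)).eval y = 0 := by
      rw [hK, Polynomial.map_mul, eval_mul, Polynomial.map_sub, map_X, map_C, eval_sub, eval_X,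
        eval_C, coe_evalRingHom, hyu, sub_self, zero_mul]
    have h1 := hFsep θ hθ
    rw [hGH, Polynomial.map_mul] at h1
    obtain ⟨a, b, hab⟩ := h1.isCoprime
    have h2 := congrArg (eval y) hab
    rw [eval_add, eval_mul, eval_mul, hyG, hHθ, mul_zero, mul_zero, add_zero, eval_one] at h2
    exact zero_ne_one h2

end Pool.Agent.MooreExp
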