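import Mathlib
import Pool.Agent.MooreExp.Point

set_option autoImplicit false

open Polynomial

namespace Pool.Agent.MooreExp

/-- Lagrange weights -/
noncomputable def wt {L : Type*} [Field L] {k : ℕ} (z : Fin k → L) (i : Fin k) : L :=
  (∏ j ∈ Finset.univ.erase i, (z i - z j))⁻¹

lemma wt_ne_zero {L : Type*} [Field L] {k : ℕ} (z : Fin k → L) (hz : Function.Injective z)
    (i : Fin k) : wt z i ≠ 0 := by
  apply inv_ne_zero
  rw [Finset.prod_ne_zero_iff]
  intro j hj
  rw [sub_ne_zero]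
  exact fun h => (Finset.ne_of_mem_erase hj) (hz h).symm

lemma sum_wt_mul_eval {L : Type*} [Field L] {r : ℕ} (z : Fin (r + 3) → L)
    (hz : Function.Injective z) (P : L[X]) (hP : P.natDegree < r + 2) :
    ∑ i, wt z i * P.eval (z i) = 0 := by
  classical
  have h1 := Lagrange.coeff_eq_sum (s := (Finset.univ : Finset (Fin (r + 3)))) (v := z)
    hz.injOn (P := P) (by
      rw [Finset.card_univ, Fintype.card_fin]
      exact (degree_le_natDegree).trans_lt (by exact_mod_cast (by omega : P.natDegree < r + 3)))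
  rw [Finset.card_univ, Fintype.card_fin, coeff_eq_zero_of_natDegree_lt (by omega)] at h1
  rw [h1]
  apply Finset.sum_congr rfl
  intro i _
  rw [wt, div_eq_mul_inv, mul_comm]

/-- the linear factors of `F` -/
lemma X_sub_C_dvd_Fpoly {L : Type*} [Field L] (p : ℕ) [Fact p.Prime] [CharP L p] (e r : ℕ)
    (t : Fin (r + 3) → ℕ) (z : Fin (r + 3) → L) (hz : Function.Injective z) (ζ : L)
    (P : L[X]) (hP : P.natDegree ≤ r)
    (hPq : ∀ i, (P.eval ζ) ^ ((p ^ e) ^ t i) = P.eval (z i)) (δ : L) (hδ : ∀ i, δ ^ ((p ^ e) ^ t i) = δ) :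
    (X - C (C (P.eval ζ) + C δ * X)) ∣ Fpoly (p ^ e) t (wt z) z := by
  rw [dvd_iff_isRoot, IsRoot.def, Fpoly, sp_eval]
  have hExp : ExpChar L p := ExpChar.prime Fact.out
  set lamb : L[X] := ∑ l, C (wt z l) * X ^ ((p ^ e) ^ t l) with hlamb
  set M : L[X] := ∑ l, C (z l * wt z l) * X ^ ((p ^ e) ^ t l) with hM
  have h1 : ∀ i, cpoly (p ^ e) t (wt z) z i = C (z i * wt z i) * lamb - C (wt z i) * M := by
    intro i
    rw [cpoly, sp, hlamb, hM, Finset.mul_sum, Finset.mul_sum, ← Finset.sum_sub_distrib]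
    apply Finset.sum_congr rfl
    intro l _
    rw [← mul_assoc, ← mul_assoc, ← C_mul, ← C_mul, ← sub_mul, ← C_sub]
    congr 2
    ring
  have h2 : ∀ i, (C (P.eval ζ) + C δ * X : L[X]) ^ ((p ^ e) ^ t i) =
      C (P.eval (z i)) + C δ * X ^ ((p ^ e) ^ t i) := by
    intro i
    have h3 : (p ^ e) ^ t i = p ^ (e * t i) := by rw [← pow_mul]
    rw [h3, add_pow_char_pow, mul_pow, ← C_pow, ← C_pow, ← h3, hPq, hδ]
  have hs1 : ∑ i, C (wt z i) * (C (P.eval (z i)) + C δ * X ^ ((p ^ e) ^ t i)) = C δ * lamb := by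
    have h4 : ∑ i, C (wt z i) * C (P.eval (z i)) = (0 : L[X]) := by
      have := sum_wt_mul_eval z hz P (by omega)
      rw [← C_0, ← this, map_sum]
      simp
    simp only [mul_add, Finset.sum_add_distrib]
    rw [h4, zero_add, hlamb, Finset.mul_sum]
    apply Finset.sum_congr rfl
    intro i _; ring
  have hs2 : ∑ i, C (z i * wt z i) * (C (P.eval (z i)) + C δ * X ^ ((p ^ e) ^ t i)) = C δ * M := by
    have h4 : ∑ i, C (z i * wt z i) * C (P.eval (z i)) = (0 : L[X]) := by
      have := sum_wt_mul_eval z hz (X * P) (by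
        refine lt_of_le_of_lt natDegree_mul_le ?_
        rw [natDegree_X]; omega)
      rw [← C_0, ← this, map_sum]
      apply Finset.sum_congr rfl
      intro i _
      rw [← C_mul, eval_mul, eval_X]
      congr 1; ring
    simp only [mul_add, Finset.sum_add_distrib]
    rw [h4, zero_add, hM, Finset.mul_sum]
    apply Finset.sum_congr rfl
    intro i _; ring
  calc ∑ l, cpoly (p ^ e) t (wt z) z l * (C (P.eval ζ) + C δ * X) ^ ((p ^ e) ^ t l)
      = lamb * ∑ i, C (z i * wt z i) * (C (P.eval (z i)) + C δ * X ^ ((p ^ e) ^ t i)) -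
        M * ∑ i, C (wt z i) * (C (P.eval (z i)) + C δ * X ^ ((p ^ e) ^ t i)) := by
        rw [Finset.mul_sum, Finset.mul_sum, ← Finset.sum_sub_distrib]
        apply Finset.sum_congr rfl
        intro i _
        rw [h1, h2]; ring
    _ = 0 := by rw [hs1, hs2]; ring

lemma cpoly_eval_span {L : Type*} [Field L] (p : ℕ) (e r : ℕ)
    (t : Fin (r + 3) → ℕ) (z : Fin (r + 3) → L) (hz : Function.Injective z) (ζ : L)
    (P : L[X]) (hP : P.natDegree ≤ r)
    (hPq : ∀ i, (P.eval ζ) ^ ((p ^ e) ^ t i) = P.eval (z i)) (i : Fin (r + 3)) :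
    (cpoly (p ^ e) t (wt z) z i).eval (P.eval ζ) = 0 := by
  rw [cpoly, sp_eval]
  have h1 := sum_wt_mul_eval z hz P (by omega)
  have h2 := sum_wt_mul_eval z hz (X * P) (by
        refine lt_of_le_of_lt natDegree_mul_le ?_
        rw [natDegree_X]; omega)
  calc ∑ l, wt z i * wt z l * (z i - z l) * (P.eval ζ) ^ ((p ^ e) ^ t l)
      = wt z i * z i * ∑ l, wt z l * P.eval (z l) - wt z i * ∑ l, wt z l * (X * P).eval (z l) := by
        rw [Finset.mul_sum, Finset.mul_sum, ← Finset.sum_sub_distrib]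
        apply Finset.sum_congr rfl
        intro l _
        rw [hPq, eval_mul, eval_X]; ring
    _ = 0 := by rw [h1, h2]; ring

end Pool.Agent.MooreExp
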