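import Mathlib
import Pool.Agent.MooreExp.Core

set_option autoImplicit false

open Polynomial

namespace Pool.Agent.MooreExp

/-- the polynomial with coefficients `g (γ a)` -/
noncomputable def pg {K L : Type*} [Field K] [Field L] (g : K →+* L) {s : ℕ} (γ : Fin s → K) : L[X] :=
  ∑ a : Fin s, C (g (γ a)) * X ^ (a : ℕ)

lemma pg_coeff {K L : Type*} [Field K] [Field L] (g : K →+* L) {s : ℕ} (γ : Fin s → K) (a : Fin s) :
    (pg g γ).coeff a = g (γ a) := by
  rw [pg, finsetSum_coeff, Finset.sum_eq_single a]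
  · simp
  · intro j _ hj
    rw [coeff_C_mul, coeff_X_pow, if_neg (fun h => hj (Fin.ext h).symm), mul_zero]
  · simp

lemma pg_natDegree {K L : Type*} [Field K] [Field L] (g : K →+* L) {s : ℕ} (γ : Fin (s + 1) → K) :
    (pg g γ).natDegree ≤ s := by
  apply natDegree_sum_le_of_forall_le
  intro a _
  refine (natDegree_C_mul_X_pow_le _ _).trans ?_
  have := a.2; omega

lemma pg_eval {K L : Type*} [Field K] [Field L] (g : K →+* L) {s : ℕ} (γ : Fin s → K) (x : L) :
    (pg g γ).eval x = ∑ a : Fin s, g (γ a) * x ^ (a : ℕ) := by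
  simp [pg, eval_finsetSum]

lemma pg_eval_pow {K L : Type*} [Field K] [Field L] [Finite K] (p e : ℕ) [Fact p.Prime] [CharP L p]
    (g : K →+* L) (hK : Nat.card K = p ^ e) {s : ℕ} (γ : Fin s → K) (x : L) (m : ℕ) :
    ((pg g γ).eval x) ^ ((p ^ e) ^ m) = (pg g γ).eval (x ^ ((p ^ e) ^ m)) := by
  have : Fintype K := Fintype.ofFinite K
  have hExp : ExpChar L p := ExpChar.prime Fact.out
  rw [pg_eval, pg_eval]
  have h3 : (p ^ e) ^ m = p ^ (e * m) := by rw [← pow_mul]
  have h4 : ∀ c : K, c ^ ((p ^ e) ^ m) = c := by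
    intro c
    rw [← hK, Nat.card_eq_fintype_card]
    exact FiniteField.pow_card_pow _ _
  rw [h3] at h4 ⊢
  rw [sum_pow_char_pow]
  apply Finset.sum_congr rfl
  intro a _
  rw [mul_pow, ← pow_mul, ← pow_mul, mul_comm (a : ℕ), ← map_pow, h4]

lemma g_pow {K L : Type*} [Field K] [Field L] [Finite K] (p e : ℕ)
    (g : K →+* L) (hK : Nat.card K = p ^ e) (c : K) (m : ℕ) :
    (g c) ^ ((p ^ e) ^ m) = g c := by
  have : Fintype K := Fintype.ofFinite K
  rw [← map_pow]
  congr 1
  rw [← hK, Nat.card_eq_fintype_card]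
  exact FiniteField.pow_card_pow _ _

theorem core_field {K L : Type*} [Field K] [Finite K] [Field L] [Finite L] (p e : ℕ) [Fact p.Prime]
    [CharP L p] (g : K →+* L) (hK : Nat.card K = p ^ e) (r : ℕ)
    (t : Fin (r + 3) → ℕ) (z : Fin (r + 3) → L) (hz : Function.Injective z) (ζ : L)
    (hζ : ∀ i, z i = ζ ^ ((p ^ e) ^ t i)) (θ y : L)
    (hA : (cpoly (p ^ e) t (wt z) z (Fin.last (r + 2))).eval θ ≠ 0)
    (hF : ((Fpoly (p ^ e) t (wt z) z).map (evalRingHom θ)).eval y = 0)
    (hu : ∀ u : L[X], (X - C u) ∣ Fpoly (p ^ e) t (wt z) z → y ≠ u.eval θ) :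
    ∃ a : Fin (r + 3) → L, (∃ i, a i ≠ 0) ∧
      (p ^ e) ^ (r + 3) ≤ Nat.card {x : L // ∑ i, a i * x ^ ((p ^ e) ^ t i) = 0} := by
  have hExp : ExpChar L p := ExpChar.prime Fact.out
  set q := p ^ e with hq
  have hPq : ∀ (γ : Fin (r + 1) → K) (i), ((pg g γ).eval ζ) ^ (q ^ t i) = (pg g γ).eval (z i) := by
    intro γ i
    rw [hq, pg_eval_pow p e g hK, ← hq, hζ]
  have hδ : ∀ (δ : K) (i : Fin (r + 3)), (g δ) ^ (q ^ t i) = g δ := fun δ i => g_pow p e g hK δ _
  set a : Fin (r + 3) → L := fun i => (cpoly q t (wt z) z i).eval θ with ha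
  set f : L → L := fun x => ∑ i, a i * x ^ (q ^ t i) with hf
  have hfF : ∀ x, f x = ((Fpoly q t (wt z) z).map (evalRingHom θ)).eval x := by
    intro x
    rw [Fpoly, sp_map, sp_eval]
    rfl
  have hfadd : ∀ x x', f (x + x') = f x + f x' := by
    intro x x'
    simp only [hf]
    rw [← Finset.sum_add_distrib]
    apply Finset.sum_congr rfl
    intro i _
    have h3 : q ^ t i = p ^ (e * t i) := by rw [hq, ← pow_mul]
    rw [h3, add_pow_char_pow, mul_add]
  have hfsmul : ∀ (c : K) (x : L), f (g c * x) = g c * f x := by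
    intro c x
    simp only [hf]
    rw [Finset.mul_sum]
    apply Finset.sum_congr rfl
    intro i _
    rw [mul_pow, hδ]; ring
  have hlin : ∀ (γ : Fin (r + 1) → K) (δ : K), (X - C (C ((pg g γ).eval ζ) + C (g δ) * X)) ∣
      Fpoly q t (wt z) z :=
    fun γ δ => X_sub_C_dvd_Fpoly p e r t z hz ζ (pg g γ) (pg_natDegree g γ) (hPq γ) (g δ) (hδ δ)
  have hfspan : ∀ (γ : Fin (r + 1) → K) (δ : K), f ((pg g γ).eval ζ + g δ * θ) = 0 := by
    intro γ δ
    obtain ⟨S, hS⟩ := hlin γ δ
    rw [hfF, hS, Polynomial.map_mul, eval_mul]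
    have : ((X - C (C ((pg g γ).eval ζ) + C (g δ) * X) : L[X][X]).map (evalRingHom θ)).eval
        ((pg g γ).eval ζ + g δ * θ) = 0 := by
      simp
    rw [this, zero_mul]
  have hfy : f y = 0 := by rw [hfF]; exact hF
  let Φ : (Fin (r + 1) → K) × K × K → L := fun x =>
    ((pg g x.1).eval ζ + g x.2.1 * θ) + g x.2.2 * y
  have hΦf : ∀ x, f (Φ x) = 0 := by
    intro x
    simp only [Φ]
    rw [hfadd, hfspan, hfsmul, hfy, mul_zero, add_zero]
  have hpgsmul : ∀ (c : K) (γ : Fin (r + 1) → K) (x : L),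
      (pg g (fun a => c * γ a)).eval x = g c * (pg g γ).eval x := by
    intro c γ x
    rw [pg_eval, pg_eval, Finset.mul_sum]
    apply Finset.sum_congr rfl
    intro a _
    rw [map_mul]; ring
  have hker : ∀ x, Φ x = 0 → x = 0 := by
    rintro ⟨γ, δ, ε⟩ hx
    simp only [Φ] at hx
    have hε : ε = 0 := by
      by_contra hε
      have hgε : g ε ≠ 0 := (map_ne_zero g).2 hε
      apply hu _ (hlin (fun a => (-ε⁻¹) * γ a) ((-ε⁻¹) * δ))
      rw [eval_add, eval_C, eval_mul, eval_C, eval_X, hpgsmul, map_mul, map_neg, map_inv₀]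
      field_simp
      linear_combination hx
    subst hε
    rw [map_zero, zero_mul, add_zero] at hx
    have hδ0 : δ = 0 := by
      by_contra hδ0
      have hgδ : g δ ≠ 0 := (map_ne_zero g).2 hδ0
      have h1 : θ = (pg g (fun a => (-δ⁻¹) * γ a)).eval ζ := by
        rw [hpgsmul, map_neg, map_inv₀]
        field_simp
        linear_combination hx
      apply hA
      rw [h1]
      exact cpoly_eval_span p e r t z hz ζ _ (pg_natDegree g _) (hPq _) _
    subst hδ0
    rw [map_zero, zero_mul, add_zero] at hx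
    have hP0 : pg g γ = 0 := by
      apply eq_zero_of_natDegree_lt_card_of_eval_eq_zero _ hz
      · intro i
        rw [← hPq, hx, zero_pow]
        have : 0 < p := (Fact.out (p := p.Prime)).pos
        positivity
      · rw [Fintype.card_fin]
        have := pg_natDegree g γ
        omega
    have hγ : γ = 0 := by
      ext a
      have h1 := pg_coeff g γ a
      rw [hP0, coeff_zero] at h1
      exact (map_eq_zero g).1 h1.symm
    rw [hγ]; rfl
  have hsub : ∀ x x', Φ (x - x') = Φ x - Φ x' := by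
    intro x x'
    simp only [Φ, Prod.fst_sub, Prod.snd_sub, map_sub]
    have : (pg g (x.1 - x'.1)).eval ζ = (pg g x.1).eval ζ - (pg g x'.1).eval ζ := by
      rw [pg_eval, pg_eval, pg_eval, ← Finset.sum_sub_distrib]
      apply Finset.sum_congr rfl
      intro a _
      rw [Pi.sub_apply, map_sub]; ring
    rw [this]; ring
  have hinj : Function.Injective (fun x => (⟨Φ x, hΦf x⟩ : {x : L // f x = 0})) := by
    intro x x' hxx
    have h1 : Φ x = Φ x' := congrArg Subtype.val hxx
    have h2 := hker (x - x') (by rw [hsub, h1, sub_self])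
    exact sub_eq_zero.1 h2
  refine ⟨a, ⟨_, hA⟩, ?_⟩
  have hcard := Nat.card_le_card_of_injective _ hinj
  have h1 : Nat.card ((Fin (r + 1) → K) × K × K) = q ^ (r + 3) := by
    rw [Nat.card_prod, Nat.card_prod, Nat.card_fun, hK, Nat.card_eq_fintype_card, Fintype.card_fin]
    ring
  rw [h1] at hcard
  exact hcard

end Pool.Agent.MooreExp
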