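import Mathlib
import Pool.Agent.MooreExp.Core2

set_option autoImplicit false

open Polynomial

namespace Pool.Agent.MooreExp

lemma exists_generic {L : Type*} [Field L] [Finite L] (q n : ℕ) (hq : 2 ≤ q) (hL : Nat.card L = q ^ n)
    (m : ℕ) (hm : m + 1 < n) :
    ∃ ζ : L, ∀ a b : ℕ, a ≤ m → b ≤ m → ζ ^ (q ^ a) = ζ ^ (q ^ b) → a = b := by
  obtain ⟨g, hg⟩ := IsCyclic.exists_generator (α := Lˣ)
  have hord : orderOf g = q ^ n - 1 := by
    rw [orderOf_eq_card_of_forall_mem_zpowers hg, Nat.card_units, hL]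
  refine ⟨(g : L), ?_⟩
  intro a b ha hb hab
  have hlt : ∀ c, c ≤ m → q ^ c < orderOf g := by
    intro c hc
    rw [hord]
    have h1 : q ^ c ≤ q ^ m := Nat.pow_le_pow_right (by omega) hc
    have h2 : q ^ (m + 2) ≤ q ^ n := Nat.pow_le_pow_right (by omega) (by omega)
    have h3 : 1 ≤ q ^ m := Nat.one_le_pow _ _ (by omega)
    have h4 : 4 * q ^ m ≤ q ^ (m + 2) := by
      rw [pow_add, mul_comm]
      apply Nat.mul_le_mul_left
      nlinarith
    omega
  have h5 : g ^ (q ^ a) = g ^ (q ^ b) := by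
    ext
    push_cast
    exact hab
  have h6 := pow_injOn_Iio_orderOf (Set.mem_Iio.2 (hlt a ha)) (Set.mem_Iio.2 (hlt b hb)) h5
  exact Nat.pow_right_injective hq h6

/-- the theorem when the first gap is at least the last gap -/
theorem core_gap (p : ℕ) [Fact p.Prime] (e : ℕ) (he : 0 < e) (r : ℕ)
    (t : Fin (r + 3) → ℕ) (ht : StrictMono t) (ht0 : t 0 = 0)
    (hgap : t (Fin.last (r + 2)) ≤ t (Fin.last (r + 1)).castSucc + t 1)
    (hap : ∃ i, t i ≠ i * t 1) :
    ∃ c : ℕ, ∀ n : ℕ, c < n → ∃ a : Fin (r + 3) → GaloisField p (e * n), (∃ i, a i ≠ 0) ∧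
      (p ^ e) ^ (r + 3) ≤
        Nat.card {x : GaloisField p (e * n) // ∑ i, a i * x ^ ((p ^ e) ^ t i) = 0} := by
  obtain ⟨N1, hN1⟩ := exists_point p e he r t ht ht0 hgap hap
  have hp2 : 2 ≤ p := (Fact.out (p := p.Prime)).two_le
  have hq2 : 2 ≤ p ^ e := by
    calc 2 ≤ p := hp2
      _ = p ^ 1 := (pow_one p).symm
      _ ≤ p ^ e := Nat.pow_le_pow_right (by omega) he
  refine ⟨t (Fin.last (r + 2)) + 1 + N1, ?_⟩
  intro n hn
  have hn0 : n ≠ 0 := by omega
  have hen : e * n ≠ 0 := Nat.mul_ne_zero (by omega) hn0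
  have hcard : Nat.card (GaloisField p (e * n)) = (p ^ e) ^ n := by
    rw [GaloisField.card p _ hen, pow_mul]
  have hbig : N1 ≤ Nat.card (GaloisField p (e * n)) := by
    rw [hcard]
    have h1 : n < (p ^ e) ^ n := Nat.lt_pow_self hq2
    omega
  obtain ⟨ζ, hζ⟩ := exists_generic (L := GaloisField p (e * n)) (p ^ e) n hq2 hcard
    (t (Fin.last (r + 2))) (by omega)
  set z : Fin (r + 3) → GaloisField p (e * n) := fun i => ζ ^ ((p ^ e) ^ t i) with hz
  have hzinj : Function.Injective z := by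
    intro i j hij
    exact ht.injective (hζ _ _ (ht.monotone (Fin.le_last i)) (ht.monotone (Fin.le_last j)) hij)
  obtain ⟨θ, y, hA, hF, hu⟩ := hN1 (GaloisField p (e * n)) hbig (wt z) z (wt_ne_zero z hzinj) hzinj
  have hfr : Module.finrank (ZMod p) (GaloisField p e) ∣
      Module.finrank (ZMod p) (GaloisField p (e * n)) := by
    rw [GaloisField.finrank p (by omega), GaloisField.finrank p hen]
    exact dvd_mul_right _ _
  obtain ⟨g⟩ := FiniteField.nonempty_algHom_of_finrank_dvd hfr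
  exact core_field p e (g : GaloisField p e →+* GaloisField p (e * n))
    (GaloisField.card p e (by omega)) r t z hzinj ζ (fun _ => rfl) θ y hA hF hu

end Pool.Agent.MooreExp
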