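import Mathlib
import Pool.Agent.MooreExp.Core3

set_option autoImplicit false

open Polynomial

namespace Pool.Agent.MooreExp

lemma trace_frob {L : Type*} [Field L] [Finite L] (p : ℕ) [Fact p.Prime] [Algebra (ZMod p) L]
    (m : ℕ) (x : L) : Algebra.trace (ZMod p) L (x ^ (p ^ m)) = Algebra.trace (ZMod p) L x := by
  induction m with
  | zero => simp
  | succ m ih =>
    rw [pow_succ, pow_mul, ← ih]
    have h1 := Algebra.trace_eq_of_algEquiv (FiniteField.frobeniusAlgEquivOfAlgebraic (ZMod p) L)
      (x ^ p ^ m)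
    rw [← h1]
    congr 1
    simp [ZMod.card]

/-- additive map `x ↦ ∑ b_i x^{p^{s_i}}` -/
noncomputable def addP {L : Type*} [Field L] (p : ℕ) [Fact p.Prime] [Algebra (ZMod p) L] {k : ℕ}
    (b : Fin k → L) (s : Fin k → ℕ) : L →ₗ[ZMod p] L :=
  ∑ i, (LinearMap.mulLeft (ZMod p) (b i)).comp
    (((FiniteField.frobeniusAlgHom (ZMod p) L) ^ (s i)).toLinearMap)

lemma addP_apply {L : Type*} [Field L] (p : ℕ) [Fact p.Prime] [Algebra (ZMod p) L] {k : ℕ}
    (b : Fin k → L) (s : Fin k → ℕ) (x : L) : addP p b s x = ∑ i, b i * x ^ (p ^ (s i)) := by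
  rw [addP, LinearMap.sum_apply]
  apply Finset.sum_congr rfl
  intro i _
  have : ∀ m, ((FiniteField.frobeniusAlgHom (ZMod p) L) ^ m) x = x ^ (p ^ m) := by
    intro m
    induction m with
    | zero => simp
    | succ m ih =>
      rw [pow_succ', AlgHom.mul_apply, ih, pow_succ, pow_mul]
      simp [ZMod.card]
  rw [LinearMap.comp_apply, LinearMap.mulLeft_apply, AlgHom.toLinearMap_apply, this]

/-- kernels of a `p`-polynomial and of its adjoint have the same size -/
lemma card_ker_adjoint {L : Type*} [Field L] [Finite L] (p : ℕ) [Fact p.Prime] [Algebra (ZMod p) L]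
    (N : ℕ) (hN : Nat.card L = p ^ N) {k : ℕ} (b : Fin k → L) (s : Fin k → ℕ) (m : ℕ)
    (hs : ∀ i, s i ≤ m) (hm : m ≤ N) :
    Nat.card {x : L // ∑ i, b i * x ^ (p ^ (m - s i)) = 0} =
      Nat.card {x : L // ∑ i, (b i) ^ (p ^ s i) * x ^ (p ^ s i) = 0} := by
  have hchar : CharP L p := charP_of_injective_algebraMap (algebraMap (ZMod p) L).injective p
  have hExp : ExpChar L p := ExpChar.prime Fact.out
  have : Fintype L := Fintype.ofFinite L
  have hpN : ∀ x : L, x ^ (p ^ N) = x := by
    intro x
    rw [← hN, Nat.card_eq_fintype_card]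
    exact FiniteField.pow_card x
  set g := addP p b (fun i => m - s i) with hg
  set f := addP p (fun i => (b i) ^ (p ^ s i)) s with hf
  let B := Algebra.traceForm (ZMod p) L
  have hBnd : B.Nondegenerate := traceForm_nondegenerate (ZMod p) L
  set h : L → L := fun y => ∑ i, (y * b i) ^ (p ^ (N - m + s i)) with hh
  have hhf : ∀ y, (h y) ^ (p ^ m) = f y := by
    intro y
    rw [hh, hf, addP_apply]
    simp only
    rw [sum_pow_char_pow]
    apply Finset.sum_congr rfl
    intro i _
    rw [← pow_mul, ← pow_add]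
    have h1 : N - m + s i + m = N + s i := by omega
    rw [h1, pow_add p N, pow_mul (y * b i), hpN, mul_pow, mul_comm]
  have hadj : ∀ x y, Algebra.trace (ZMod p) L (g x * y) = Algebra.trace (ZMod p) L (h y * x) := by
    intro x y
    rw [hg, addP_apply, Finset.sum_mul, map_sum, hh]
    simp only
    rw [Finset.sum_mul, map_sum]
    apply Finset.sum_congr rfl
    intro i _
    rw [← trace_frob p (N - m + s i)]
    congr 1
    have h1 : m - s i + (N - m + s i) = N := by have := hs i; omega
    have h2 : b i * x ^ p ^ (m - s i) * y = (y * b i) * x ^ p ^ (m - s i) := by ring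
    rw [h2, mul_pow, ← pow_mul, ← pow_add, h1, hpN]
  have hker : LinearMap.ker f = B.orthogonal (LinearMap.range g) := by
    ext y
    rw [LinearMap.mem_ker, LinearMap.BilinForm.mem_orthogonal_iff]
    constructor
    · rintro hy _ ⟨x, rfl⟩
      change Algebra.trace (ZMod p) L (g x * y) = 0
      rw [hadj]
      have h1 : h y = 0 := by
        have h2 := hhf y
        rw [hy] at h2
        exact pow_eq_zero_iff (pow_ne_zero _ (Fact.out (p := p.Prime)).ne_zero) |>.1 h2
      rw [h1, zero_mul, map_zero]
    · intro hy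
      have h1 : ∀ x, B (h y) x = 0 := by
        intro x
        change Algebra.trace (ZMod p) L (h y * x) = 0
        rw [← hadj]
        exact hy (g x) ⟨x, rfl⟩
      have h2 : h y = 0 := hBnd.1 _ h1
      rw [← hhf, h2, zero_pow]
      exact pow_ne_zero _ (Fact.out (p := p.Prime)).ne_zero
  have hfin : Module.finrank (ZMod p) (LinearMap.ker g) = Module.finrank (ZMod p) (LinearMap.ker f) := by
    rw [hker, LinearMap.BilinForm.finrank_orthogonal hBnd]
    have := LinearMap.finrank_range_add_finrank_ker g
    omega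
  have e1 : Nat.card {x : L // ∑ i, b i * x ^ (p ^ (m - s i)) = 0} = Nat.card (LinearMap.ker g) := by
    apply Nat.card_congr
    apply Equiv.subtypeEquivRight
    intro x
    rw [LinearMap.mem_ker, hg, addP_apply]
  have e2 : Nat.card {x : L // ∑ i, (b i) ^ (p ^ s i) * x ^ (p ^ s i) = 0} =
      Nat.card (LinearMap.ker f) := by
    apply Nat.card_congr
    apply Equiv.subtypeEquivRight
    intro x
    rw [LinearMap.mem_ker, hf, addP_apply]
  rw [e1, e2, Module.natCard_eq_pow_finrank (K := ZMod p) (V := LinearMap.ker g),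
    Module.natCard_eq_pow_finrank (K := ZMod p) (V := LinearMap.ker f), hfin]

end Pool.Agent.MooreExp
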