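import Mathlib
import Pool.Agent.MooreExp.Adjoint

set_option autoImplicit false

open Polynomial

namespace Pool.Agent.MooreExp

/-- the theorem for exponents starting at `0` -/
theorem core_all (p : ℕ) [Fact p.Prime] (e : ℕ) (he : 0 < e) (r : ℕ)
    (t : Fin (r + 3) → ℕ) (ht : StrictMono t) (ht0 : t 0 = 0)
    (hap : ∃ i, t i ≠ i * t 1) :
    ∃ c : ℕ, ∀ n : ℕ, c < n → ∃ a : Fin (r + 3) → GaloisField p (e * n), (∃ i, a i ≠ 0) ∧
      (p ^ e) ^ (r + 3) ≤
        Nat.card {x : GaloisField p (e * n) // ∑ i, a i * x ^ ((p ^ e) ^ t i) = 0} := by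
  by_cases hgap : t (Fin.last (r + 2)) ≤ t (Fin.last (r + 1)).castSucc + t 1
  · exact core_gap p e he r t ht ht0 hgap hap
  rw [not_le] at hgap
  set m := t (Fin.last (r + 2)) with hm
  have htm : ∀ i, t i ≤ m := fun i => ht.monotone (Fin.le_last i)
  set t' : Fin (r + 3) → ℕ := fun i => m - t i.rev with ht'
  have ht'mono : StrictMono t' := by
    intro i j hij
    have h1 : t j.rev < t i.rev := ht (Fin.rev_lt_rev.2 hij)
    have h2 := htm i.rev
    simp only [ht']
    omega
  have ht'0 : t' 0 = 0 := by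
    simp only [ht', Fin.rev_zero]
    omega
  have ht'1 : t' 1 = m - t (Fin.last (r + 1)).castSucc := by
    simp only [ht']
    congr 2
  have ht'last : t' (Fin.last (r + 2)) = m := by
    simp only [ht', Fin.rev_last, ht0]
    omega
  have ht'sl : t' (Fin.last (r + 1)).castSucc = m - t 1 := by
    simp only [ht']
    congr 2
    ext
    simp [Fin.rev]
  have h1m := htm 1
  have hslm := htm (Fin.last (r + 1)).castSucc
  have hgap' : t' (Fin.last (r + 2)) ≤ t' (Fin.last (r + 1)).castSucc + t' 1 := by
    rw [ht'last, ht'sl, ht'1]; omega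
  have hap' : ∃ i, t' i ≠ i * t' 1 := by
    by_contra hcon
    push Not at hcon
    obtain ⟨i, hi⟩ := hap
    set d := t' 1 with hd
    have hmd : m = (r + 2) * d := by
      have := hcon (Fin.last (r + 2))
      rw [ht'last] at this
      simpa using this
    have hall : ∀ j : Fin (r + 3), t j = j * d := by
      intro j
      have h2 := hcon j.rev
      simp only [ht', Fin.rev_rev] at h2
      have h3 := htm j
      have h4 : ((j.rev : Fin (r + 3)) : ℕ) = r + 2 - j := by
        rw [Fin.val_rev]; omega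
      rw [h4] at h2
      have h5 : (j : ℕ) ≤ r + 2 := by have := j.2; omega
      obtain ⟨k, hk⟩ := Nat.exists_eq_add_of_le h5
      have h6 : r + 2 - (j : ℕ) = k := by omega
      rw [h6] at h2
      have h7 : m = (j : ℕ) * d + k * d := by rw [hmd, hk]; ring
      omega
    apply hi
    rw [hall i, hall 1]
    simp
  obtain ⟨c, hc⟩ := core_gap p e he r t' ht'mono ht'0 hgap' hap'
  refine ⟨c + m, ?_⟩
  intro n hn
  obtain ⟨b, ⟨i0, hi0⟩, hb⟩ := hc n (by omega)
  have hen : e * n ≠ 0 := Nat.mul_ne_zero (by omega) (by omega)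
  refine ⟨fun i => (b i.rev) ^ (p ^ (e * t i)), ⟨i0.rev, ?_⟩, ?_⟩
  · have : (b i0.rev.rev) ^ (p ^ (e * t i0.rev)) ≠ 0 := by
      rw [Fin.rev_rev]
      exact pow_ne_zero _ hi0
    exact this
  · have h1 := card_ker_adjoint (L := GaloisField p (e * n)) p (e * n) (GaloisField.card p _ hen)
      (fun i => b i.rev) (fun i => e * t i) (e * m) (fun i => Nat.mul_le_mul_left _ (htm i))
      (Nat.mul_le_mul_left _ (by omega))
    have h2 : Nat.card {x : GaloisField p (e * n) // ∑ i, b i * x ^ ((p ^ e) ^ t' i) = 0} =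
        Nat.card {x : GaloisField p (e * n) // ∑ i, b (Fin.rev i) * x ^ (p ^ (e * m - e * t i)) = 0} := by
      apply Nat.card_congr
      apply Equiv.subtypeEquivRight
      intro x
      have h3 : ∑ i, b i * x ^ ((p ^ e) ^ t' i) =
          ∑ i, b (Fin.rev i) * x ^ (p ^ (e * m - e * t i)) := by
        rw [← Equiv.sum_comp Fin.revPerm]
        apply Finset.sum_congr rfl
        intro i _
        rw [Fin.revPerm_apply]
        congr 2
        rw [← pow_mul]
        congr 1
        simp only [ht', Fin.rev_rev]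
        rw [Nat.mul_sub]
      rw [h3]
    rw [h2, h1] at hb
    have h4 : ∀ i, p ^ (e * t i) = (p ^ e) ^ t i := fun i => by rw [← pow_mul]
    simp only [h4] at hb ⊢
    exact hb

/-- `S12529` in terms of helper statements: the full theorem. -/
theorem main (p : ℕ) [Fact p.Prime] (e : ℕ) (he : 0 < e) (t : Finset ℕ)
    (hap : ¬ ∃ a d : ℕ, t = (Finset.range t.card).image (fun i => a + i * d)) :
    ∃ c : ℕ, ∀ n : ℕ, c < n →
      ∃ a : ℕ → GaloisField p (e * n), (∃ i ∈ t, a i ≠ 0) ∧
        (p ^ e) ^ (t.card - 1) <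
          Nat.card {x : GaloisField p (e * n) // ∑ i ∈ t, a i * x ^ ((p ^ e) ^ i) = 0} := by
  classical
  have hp2 : 2 ≤ p := (Fact.out (p := p.Prime)).two_le
  have hq2 : 2 ≤ p ^ e := by
    calc 2 ≤ p := hp2
      _ = p ^ 1 := (pow_one p).symm
      _ ≤ p ^ e := Nat.pow_le_pow_right (by omega) he
  -- the cardinality is at least three
  have hcard : 3 ≤ t.card := by
    by_contra hlt
    push Not at hlt
    apply hap
    interval_cases h : t.card
    · rw [Finset.card_eq_zero] at h
      exact ⟨0, 0, by rw [h]; simp⟩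
    · obtain ⟨a, ha⟩ := Finset.card_eq_one.1 h
      exact ⟨a, 0, by rw [ha]; simp⟩
    · obtain ⟨a, b, hab, ha⟩ := Finset.card_eq_two.1 h
      rcases Nat.lt_or_ge a b with h1 | h1
      · refine ⟨a, b - a, ?_⟩
        rw [ha]
        ext x
        simp only [Finset.mem_insert, Finset.mem_singleton, Finset.mem_image, Finset.mem_range]
        constructor
        · rintro (rfl | rfl)
          · exact ⟨0, by omega, by simp⟩
          · exact ⟨1, by omega, by omega⟩
        · rintro ⟨i, hi, rfl⟩
          interval_cases i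
          · left; simp
          · right; omega
      · refine ⟨b, a - b, ?_⟩
        rw [ha]
        ext x
        simp only [Finset.mem_insert, Finset.mem_singleton, Finset.mem_image, Finset.mem_range]
        constructor
        · rintro (rfl | rfl)
          · exact ⟨1, by omega, by omega⟩
          · exact ⟨0, by omega, by simp⟩
        · rintro ⟨i, hi, rfl⟩
          interval_cases i
          · right; simp
          · left; omega
  obtain ⟨r, hr⟩ : ∃ r, t.card = r + 3 := ⟨t.card - 3, by omega⟩
  set s : Fin (r + 3) ↪o ℕ := t.orderEmbOfFin hr with hs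
  have hsmono : StrictMono s := s.strictMono
  set t' : Fin (r + 3) → ℕ := fun i => s i - s 0 with ht'
  have hs0 : ∀ i, s 0 ≤ s i := fun i => hsmono.monotone (Fin.zero_le i)
  have ht'mono : StrictMono t' := by
    intro i j hij
    have h1 := hsmono hij
    have h2 := hs0 i
    simp only [ht']; omega
  have hst' : ∀ i, s i = s 0 + t' i := by
    intro i
    have := hs0 i
    simp only [ht']; omega
  have himage : t = Finset.univ.image s := by
    have h1 := Finset.range_orderEmbOfFin t hr
    apply Finset.coe_injective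
    rw [Finset.coe_image, Finset.coe_univ, Set.image_univ, ← h1]
  have hap' : ∃ i, t' i ≠ i * t' 1 := by
    by_contra hcon
    push Not at hcon
    apply hap
    refine ⟨s 0, t' 1, ?_⟩
    conv_lhs => rw [himage]
    rw [hr]
    ext x
    simp only [Finset.mem_image, Finset.mem_univ, true_and, Finset.mem_range]
    constructor
    · rintro ⟨i, rfl⟩
      exact ⟨i, i.2, by rw [← hcon i, ← hst']⟩
    · rintro ⟨i, hi, rfl⟩
      exact ⟨⟨i, hi⟩, by rw [hst', hcon]⟩
  obtain ⟨c, hc⟩ := core_all p e he r t' ht'mono (by simp [ht']) hap'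
  refine ⟨c, ?_⟩
  intro n hn
  obtain ⟨a, ⟨i0, hi0⟩, ha⟩ := hc n hn
  have hinj : Function.Injective s := s.injective
  set b : ℕ → GaloisField p (e * n) := fun j =>
    ∑ i : Fin (r + 3), if s i = j then (a i) ^ ((p ^ e) ^ s 0) else 0 with hb
  have hbs : ∀ i, b (s i) = (a i) ^ ((p ^ e) ^ s 0) := by
    intro i
    rw [hb]
    simp only
    rw [Finset.sum_eq_single i]
    · rw [if_pos rfl]
    · intro j _ hj
      rw [if_neg (fun h => hj (hinj h))]
    · simp
  refine ⟨b, ⟨s i0, Finset.orderEmbOfFin_mem t hr i0, ?_⟩, ?_⟩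
  · rw [hbs]
    exact pow_ne_zero _ hi0
  · have hExp : ExpChar (GaloisField p (e * n)) p := ExpChar.prime Fact.out
    have h1 : ∀ x : GaloisField p (e * n), ∑ i ∈ t, b i * x ^ ((p ^ e) ^ i) =
        (∑ i, a i * x ^ ((p ^ e) ^ t' i)) ^ ((p ^ e) ^ s 0) := by
      intro x
      have h3 : (p ^ e) ^ s 0 = p ^ (e * s 0) := by rw [← pow_mul]
      rw [himage, Finset.sum_image (fun i _ j _ h => hinj h)]
      conv_rhs => rw [h3, sum_pow_char_pow, ← h3]
      apply Finset.sum_congr rfl
      intro i _
      have h5 : (x ^ (p ^ e) ^ t' i) ^ (p ^ e) ^ s 0 = x ^ (p ^ e) ^ s i := by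
        rw [← pow_mul x, ← pow_add, add_comm, ← hst']
      rw [hbs, mul_pow, h5]
    have h2 : Nat.card {x : GaloisField p (e * n) // ∑ i ∈ t, b i * x ^ ((p ^ e) ^ i) = 0} =
        Nat.card {x : GaloisField p (e * n) // ∑ i, a i * x ^ ((p ^ e) ^ t' i) = 0} := by
      apply Nat.card_congr
      apply Equiv.subtypeEquivRight
      intro x
      rw [h1, pow_eq_zero_iff]
      have : 0 < p := by omega
      positivity
    rw [h2, hr]
    refine lt_of_lt_of_le ?_ ha
    exact Nat.pow_lt_pow_right hq2 (by omega)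

end Pool.Agent.MooreExp
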